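import Pool.Agent.Helper80.DR.Levels2

set_option autoImplicit false

/-!
# DR-5 Chain2: the induction over the primes, with a dominating function

Same proof as `Helper80/DC/Chain.lean` (finished), with `levels2` instead of `levels`. Differences:
the multipliers `q i` are integers which are distinct and nonzero modulo every `p ∈ P` (instead of
`0 < q i < p`), and the function `r` is chosen together with `G`, before the integer `v`. In the
three cases the set of tuples `V` for `levels2` is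
`{v | ∃ v0 : ℤ, (∀ p ∈ P, ¬ p ∣ v0) ∧ ∀ i, v i = q i * v0 * ∏ G'}`. In case (2b) (`D = 1`) the
induction hypothesis is used for `v0 * p`, and `Adm_free` passes from `m * p ^ 1` to `m`.
-/

namespace Pool.Agent.Helper80.DR

open Finset Pool.Agent.Helper80.DC

private theorem chain2_unit {K : ℕ} {p : ℕ} (hp : p.Prime) (q : Fin K → ℤ)
    (hq : Function.Injective (fun i => (q i : ZMod p))) (hq0 : ∀ i, (q i : ZMod p) ≠ 0) (v : ℤ)
    (hv : ¬ (p : ℤ) ∣ v) (G : Finset ℕ) (hG : ∀ r ∈ G, r.Prime) (hpG : p ∉ G) :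
    Function.Injective (fun i => ((q i * v * ∏ r ∈ G, (r : ℤ) : ℤ) : ZMod p)) ∧
      ∀ i, ((q i * v * ∏ r ∈ G, (r : ℤ) : ℤ) : ZMod p) ≠ 0 := by
  haveI : Fact p.Prime := ⟨hp⟩
  have hpz : Prime (p : ℤ) := Nat.prime_iff_prime_int.1 hp
  have hu : ((v * ∏ r ∈ G, (r : ℤ) : ℤ) : ZMod p) ≠ 0 := by
    intro h0
    rw [ZMod.intCast_zmod_eq_zero_iff_dvd _ p] at h0
    rcases hpz.dvd_mul.1 h0 with h1 | h1
    · exact hv h1
    · obtain ⟨r, hr, hd2⟩ := (Prime.dvd_finsetProd_iff hpz _).1 h1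
      have h2 : p ∣ r := Int.natCast_dvd_natCast.1 hd2
      have h3 : p = r := (Nat.prime_dvd_prime_iff_eq hp (hG r hr)).1 h2
      exact hpG (h3 ▸ hr)
  have e : ∀ i, ((q i * v * ∏ r ∈ G, (r : ℤ) : ℤ) : ZMod p) =
      (q i : ZMod p) * ((v * ∏ r ∈ G, (r : ℤ) : ℤ) : ZMod p) := by
    intro i
    rw [← Int.cast_mul, mul_assoc]
  constructor
  · intro i j hij
    simp only at hij
    rw [e, e] at hij
    exact hq (mul_right_cancel₀ hu hij)
  · intro i
    rw [e]
    exact mul_ne_zero (hq0 i) hu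

private theorem Dom_mono {K : ℕ} {X Y : Finset ℤ} {m m' : ℕ} {V V' : Set (Fin K → ℤ)}
    {r : ℤ → ℤ → ℝ} (h : Dom K X Y m m' V r) (hVV : V' ⊆ V) : Dom K X Y m m' V' r :=
  fun v hv => h v (hVV hv)

/-- [DR-5] -/
theorem chain2 {η : ℝ} (hη : 0 ≤ η) {K : ℕ} (h : NodeProp2 η K) (B0 : ℝ) (hB0 : 0 ≤ B0)
    (q : Fin K → ℤ) (X Y : Finset ℤ) (hX : X.Nonempty) (hY : Y.Nonempty) (P : Finset ℕ)
    (hP : ∀ p ∈ P, p.Prime) (hq : ∀ p ∈ P, Function.Injective (fun i => (q i : ZMod p)))
    (hq0 : ∀ p ∈ P, ∀ i, (q i : ZMod p) ≠ 0) :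
    ∀ m m' : ℕ, 0 < m → 0 < m' → (∀ p ∈ P, ¬ p ∣ m ∧ ¬ p ∣ m') →
      Phi X m + Phi Y m' ≤ B0 * P.card →
      ∃ G ⊆ P, ∃ r : ℤ → ℤ → ℝ, (∀ x y, 0 ≤ r x y) ∧
        Dom K X Y m m' {w | ∃ v : ℤ, (∀ p ∈ P, ¬ (p : ℤ) ∣ v) ∧
          ∀ i, w i = q i * v * ∏ p ∈ G, (p : ℤ)} r ∧
        ∑ x ∈ X, ∑ y ∈ Y, r x y ≤
          K * (η * (1 + B0) * (X.card * Y.card * (Phi X m + Phi Y m'))) := by
  classical
  have hX0 : (0 : ℝ) ≤ X.card := Nat.cast_nonneg _
  have hY0 : (0 : ℝ) ≤ Y.card := Nat.cast_nonneg _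
  have hK0 : (0 : ℝ) ≤ K := Nat.cast_nonneg _
  have hmono : ∀ a b : ℝ, a ≤ b → (K : ℝ) * (η * (1 + B0) * (X.card * Y.card * a)) ≤
      K * (η * (1 + B0) * (X.card * Y.card * b)) := by
    intro a b hab
    have h1 : 0 ≤ η * (1 + B0) := mul_nonneg hη (by linarith)
    exact mul_le_mul_of_nonneg_left (mul_le_mul_of_nonneg_left
      (mul_le_mul_of_nonneg_left hab (mul_nonneg hX0 hY0)) h1) hK0
  have hadd : ∀ a b : ℝ, (K : ℝ) * (η * (1 + B0) * (X.card * Y.card * a)) +
      K * (η * (1 + B0) * (X.card * Y.card * b)) =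
      K * (η * (1 + B0) * (X.card * Y.card * (a + b))) := by
    intro a b
    ring
  induction P using Finset.induction_on with
  | empty =>
    intro m m' hm hm' _ hPhi
    rw [Finset.card_empty, Nat.cast_zero, mul_zero] at hPhi
    have h1 := Phi_nonneg X m
    have h2 := Phi_nonneg Y m'
    have h3 : Phi X m = 0 := by linarith
    have h4 : Phi Y m' = 0 := by linarith
    refine ⟨∅, Finset.Subset.refl _, fun _ _ => 0, fun _ _ => le_rfl, fun w _ =>
      ⟨fun _ _ _ => 0, fun _ _ _ => le_rfl, fun i => Adm_zero X Y m m' _ h3 h4,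
        fun x _ y _ => by simp⟩, ?_⟩
    simp only [Finset.sum_const_zero]
    rw [h3, h4, add_zero, mul_zero, mul_zero, mul_zero]
  | insert p P hpP ih =>
    intro m m' hm hm' hdiv hPhi
    have hp : p.Prime := hP p (Finset.mem_insert_self _ _)
    haveI : Fact p.Prime := ⟨hp⟩
    have hP' : ∀ r ∈ P, r.Prime := fun r hr => hP r (Finset.mem_insert_of_mem hr)
    have hqP' : ∀ r ∈ P, Function.Injective (fun i => (q i : ZMod r)) :=
      fun r hr => hq r (Finset.mem_insert_of_mem hr)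
    have hq0P' : ∀ r ∈ P, ∀ i, (q i : ZMod r) ≠ 0 :=
      fun r hr => hq0 r (Finset.mem_insert_of_mem hr)
    have hqp := hq p (Finset.mem_insert_self _ _)
    have hq0p := hq0 p (Finset.mem_insert_self _ _)
    obtain ⟨hpm, hpm'⟩ := hdiv p (Finset.mem_insert_self _ _)
    have hdiv' : ∀ r ∈ P, ∀ a b : ℕ, ¬ r ∣ m * p ^ a ∧ ¬ r ∣ m' * p ^ b := by
      intro r hr a b
      obtain ⟨d1, d2⟩ := hdiv r (Finset.mem_insert_of_mem hr)
      have hrp : ∀ a : ℕ, ¬ r ∣ p ^ a := by
        intro a hd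
        have h1 := (hP' r hr).dvd_of_dvd_pow hd
        have h2 := (Nat.prime_dvd_prime_iff_eq (hP' r hr) hp).1 h1
        exact hpP (h2 ▸ hr)
      constructor
      · intro hd
        rcases (hP' r hr).dvd_mul.1 hd with h1 | h1
        · exact d1 h1
        · exact hrp _ h1
      · intro hd
        rcases (hP' r hr).dvd_mul.1 hd with h1 | h1
        · exact d2 h1
        · exact hrp _ h1
    have hpos : ∀ a : ℕ, 0 < m * p ^ a := fun a => Nat.mul_pos hm (pow_pos hp.pos _)
    have hpos' : ∀ a : ℕ, 0 < m' * p ^ a := fun a => Nat.mul_pos hm' (pow_pos hp.pos _)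
    rw [Finset.card_insert_of_notMem hpP, Nat.cast_add, Nat.cast_one] at hPhi
    have antX : ∀ a : ℕ, Phi X (m * p ^ a) ≤ Phi X m := fun a =>
      Phi_anti X (Dvd.intro _ rfl)
    have antY : ∀ a : ℕ, Phi Y (m' * p ^ a) ≤ Phi Y m' := fun a =>
      Phi_anti Y (Dvd.intro _ rfl)
    have antX1 : ∀ a : ℕ, Phi X (m * p ^ (a + 1)) ≤ Phi X (m * p ^ a) := fun a =>
      Phi_anti X (mul_dvd_mul_left m (pow_dvd_pow p (Nat.le_succ _)))
    have antY1 : ∀ a : ℕ, Phi Y (m' * p ^ (a + 1)) ≤ Phi Y (m' * p ^ a) := fun a =>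
      Phi_anti Y (mul_dvd_mul_left m' (pow_dvd_pow p (Nat.le_succ _)))
    have hV : ∀ G : Finset ℕ, (∀ r ∈ G, r.Prime) → p ∉ G →
        ∀ w ∈ {w : Fin K → ℤ | ∃ v : ℤ, (∀ r ∈ insert p P, ¬ (r : ℤ) ∣ v) ∧
          ∀ i, w i = q i * v * ∏ r ∈ G, (r : ℤ)},
        Function.Injective (fun i => (w i : ZMod p)) ∧ ∀ i, (w i : ZMod p) ≠ 0 := by
      rintro G hG hpG w ⟨v, hv, hw⟩
      obtain ⟨hinj, h0⟩ := chain2_unit hp q hqp hq0p v (hv p (Finset.mem_insert_self _ _)) G hG hpG
      refine ⟨?_, fun i => ?_⟩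
      · intro i j hij
        simp only at hij
        rw [hw i, hw j] at hij
        exact hinj hij
      · rw [hw i]
        exact h0 i
    by_cases hex : ∃ j : ℕ, B0 < Phi X (m * p ^ j) - Phi X (m * p ^ (j + 1)) ∨
        B0 < Phi Y (m' * p ^ j) - Phi Y (m' * p ^ (j + 1))
    · have hspec := Nat.find_spec hex
      have hmin : ∀ s < Nat.find hex, Phi X (m * p ^ s) - Phi X (m * p ^ (s + 1)) ≤ B0 ∧
          Phi Y (m' * p ^ s) - Phi Y (m' * p ^ (s + 1)) ≤ B0 := by
        intro s hs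
        have h1 := Nat.find_min hex hs
        push Not at h1
        exact h1
      generalize Nat.find hex = j0 at hspec hmin
      by_cases hboth : B0 < Phi X (m * p ^ j0) - Phi X (m * p ^ (j0 + 1)) ∧
          B0 < Phi Y (m' * p ^ j0) - Phi Y (m' * p ^ (j0 + 1))
      · -- both large
        obtain ⟨G, hGP, r, hr, hdom, hsum⟩ := ih hP' hqP' hq0P' (m * p ^ (j0 + 1)) (m' * p ^ j0)
          (hpos _) (hpos' _) (fun r hr => hdiv' r hr _ _) (by
            have a1 := antX j0
            have a2 := antY j0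
            have a3 := hboth.1
            linarith)
        have hpG : p ∉ G := fun hh => hpP (hGP hh)
        obtain ⟨r', hr', hdom', hsum'⟩ := levels2 hη h B0 hB0 p X Y hX hY m m' hm hm' hpm hpm' 1
          {w : Fin K → ℤ | ∃ v : ℤ, (∀ r ∈ insert p P, ¬ (r : ℤ) ∣ v) ∧
            ∀ i, w i = q i * v * ∏ r ∈ G, (r : ℤ)}
          (hV G (fun r hr => hP' r (hGP hr)) hpG) j0
          (fun s hs => Or.inr (hmin s hs).2) r hr (Dom_mono hdom (by
            rintro _ ⟨w, ⟨v, hv, hw⟩, rfl⟩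
            refine ⟨v * p, ?_, fun i => ?_⟩
            · intro r hr hd
              have hrz : Prime (r : ℤ) := Nat.prime_iff_prime_int.1 (hP' r hr)
              rcases hrz.dvd_mul.1 hd with h1 | h1
              · exact hv r (Finset.mem_insert_of_mem hr) h1
              · have h2 := (Nat.prime_dvd_prime_iff_eq (hP' r hr) hp).1
                  (Int.natCast_dvd_natCast.1 h1)
                exact hpP (h2 ▸ hr)
            · simp only
              rw [hw i]
              ring))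
        refine ⟨insert p G, Finset.insert_subset_insert _ hGP, r', hr', ?_, ?_⟩
        · rintro w ⟨v, hv, hw⟩
          obtain ⟨c, hc, hadm, hcr⟩ := hdom' (fun i => (p : ℤ) ^ 1 * (q i * v * ∏ r ∈ G, (r : ℤ)))
            ⟨fun i => q i * v * ∏ r ∈ G, (r : ℤ), ⟨v, hv, fun i => rfl⟩, rfl⟩
          refine ⟨c, hc, fun i => ?_, hcr⟩
          have e : w i = (p : ℤ) ^ 1 * (q i * v * ∏ r ∈ G, (r : ℤ)) := by
            rw [hw i, Finset.prod_insert hpG]
            ring
          rw [e]
          have h1 := hadm i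
          rw [show m * p ^ 1 = m * p by rw [pow_one]] at h1
          exact Adm_free X Y m m' p _ (c i) hp hpm (Dvd.intro _ (by rw [pow_one])) h1
        · have h1 := hmono _ _ (show
            (Phi X (m * p ^ (j0 + 1)) + Phi Y (m' * p ^ j0)) +
              ((Phi X (m * p ^ 1) - Phi X (m * p ^ (j0 + 1))) +
                (Phi Y m' - Phi Y (m' * p ^ j0))) ≤ Phi X m + Phi Y m' by
              have a1 := antX 1
              linarith)
          rw [← hadd] at h1
          linarith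
      · -- exactly one large
        have hor : ∀ s < j0 + 1, Phi X (m * p ^ (s + 0)) - Phi X (m * p ^ (s + 0 + 1)) ≤ B0 ∨
            Phi Y (m' * p ^ s) - Phi Y (m' * p ^ (s + 1)) ≤ B0 := by
          intro s hs
          rw [Nat.add_zero]
          rcases Nat.lt_succ_iff_lt_or_eq.1 hs with h1 | h1
          · exact Or.inl (hmin s h1).1
          · rw [h1]
            by_contra hcon
            push Not at hcon
            exact hboth hcon
        obtain ⟨G, hGP, r, hr, hdom, hsum⟩ := ih hP' hqP' hq0P' (m * p ^ (j0 + 1))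
          (m' * p ^ (j0 + 1)) (hpos _) (hpos' _) (fun r hr => hdiv' r hr _ _) (by
            have a1 := antX j0
            have a2 := antY j0
            have a3 := antX1 j0
            have a4 := antY1 j0
            rcases hspec with h1 | h1
            · linarith
            · linarith)
        have hpG : p ∉ G := fun hh => hpP (hGP hh)
        obtain ⟨r', hr', hdom', hsum'⟩ := levels2 hη h B0 hB0 p X Y hX hY m m' hm hm' hpm hpm' 0
          {w : Fin K → ℤ | ∃ v : ℤ, (∀ r ∈ insert p P, ¬ (r : ℤ) ∣ v) ∧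
            ∀ i, w i = q i * v * ∏ r ∈ G, (r : ℤ)}
          (hV G (fun r hr => hP' r (hGP hr)) hpG) (j0 + 1) hor r hr (Dom_mono (by
            rw [Nat.add_zero]; exact hdom) (by
            rintro _ ⟨w, ⟨v, hv, hw⟩, rfl⟩
            refine ⟨v, fun r hr => hv r (Finset.mem_insert_of_mem hr), fun i => ?_⟩
            simp only
            rw [hw i, pow_zero, one_mul]))
        refine ⟨G, hGP.trans (Finset.subset_insert _ _), r', hr', ?_, ?_⟩
        · rintro w ⟨v, hv, hw⟩
          have h1 := hdom' w ⟨w, ⟨v, hv, hw⟩, by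
            funext i
            simp only
            rw [pow_zero, one_mul]⟩
          rw [pow_zero, mul_one] at h1
          exact h1
        · rw [Nat.add_zero, pow_zero, mul_one] at hsum'
          have h1 := hmono _ _ (show
            (Phi X (m * p ^ (j0 + 1)) + Phi Y (m' * p ^ (j0 + 1))) +
              ((Phi X m - Phi X (m * p ^ (j0 + 1))) +
                (Phi Y m' - Phi Y (m' * p ^ (j0 + 1)))) ≤ Phi X m + Phi Y m' by linarith)
          rw [← hadd] at h1
          linarith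
    · -- no large level
      push Not at hex
      obtain ⟨J1, hJ1⟩ := Phi_pow_zero X hm hp.two_le
      obtain ⟨J2, hJ2⟩ := Phi_pow_zero Y hm' hp.two_le
      have z1 := hJ1 (max J1 J2) (le_max_left _ _)
      have z2 := hJ2 (max J1 J2) (le_max_right _ _)
      obtain ⟨r', hr', hdom', hsum'⟩ := levels2 hη h B0 hB0 p X Y hX hY m m' hm hm' hpm hpm' 0
        {w : Fin K → ℤ | ∃ v : ℤ, (∀ r ∈ insert p P, ¬ (r : ℤ) ∣ v) ∧
            ∀ i, w i = q i * v * ∏ r ∈ (∅ : Finset ℕ), (r : ℤ)}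
        (hV ∅ (fun r hr => absurd hr (Finset.notMem_empty r)) (Finset.notMem_empty p))
        (max J1 J2)
        (fun s _ => Or.inl (by rw [Nat.add_zero]; exact (hex s).1)) (fun _ _ => 0)
        (fun _ _ => le_rfl) (fun w _ => by
          rw [Nat.add_zero]
          exact ⟨fun _ _ _ => 0, fun _ _ _ => le_rfl, fun i => Adm_zero X Y _ _ _ z1 z2,
            fun x _ y _ => by simp⟩)
      refine ⟨∅, Finset.empty_subset _, r', hr', ?_, ?_⟩
      · rintro w ⟨v, hv, hw⟩
        have h1 := hdom' w ⟨w, ⟨v, hv, hw⟩, by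
          funext i
          simp only
          rw [pow_zero, one_mul]⟩
        rw [pow_zero, mul_one] at h1
        exact h1
      · rw [Nat.add_zero, pow_zero, mul_one, z1, z2, sub_zero, sub_zero] at hsum'
        simp only [Finset.sum_const_zero, zero_add] at hsum'
        exact hsum'

end Pool.Agent.Helper80.DR
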