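import Mathlib

set_option autoImplicit false

/-!
# DR-9 ChooseSum

Proof. For `0 < x ≤ 1`: `∑_{j ≤ m} C(t,j) ≤ x^(-m) ∑_j C(t,j) x^j ≤ x^(-m) (1+x)^t
≤ exp (x t + m log (1/x))`. Take `x = min (ξ/2) 1 / 2` (so `x < 1`), `κ = ξ / (2 log (1/x))` (or
smaller than `1`).
-/

namespace Pool.Agent.Helper80.DR

open Finset

/-- [DR-9] -/
theorem choose_sum (ξ : ℝ) (hξ : 0 < ξ) : ∃ κ : ℝ, 0 < κ ∧ κ ≤ 1 ∧ ∀ t m : ℕ, (m : ℝ) ≤ κ * t →
    ((∑ j ∈ Finset.range (m + 1), t.choose j : ℕ) : ℝ) ≤ Real.exp (ξ * t) := by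
  set x : ℝ := min (ξ / 2) 1 / 2 with hx
  have hx0 : 0 < x := by
    have : 0 < min (ξ / 2) 1 := lt_min (by linarith) one_pos
    rw [hx]; linarith
  have hx1 : x ≤ 1 / 2 := by
    have : min (ξ / 2) 1 ≤ 1 := min_le_right _ _
    rw [hx]; linarith
  have hxξ : x ≤ ξ / 4 := by
    have : min (ξ / 2) 1 ≤ ξ / 2 := min_le_left _ _
    rw [hx]; linarith
  have hL : 0 < Real.log (1 / x) := by
    apply Real.log_pos
    rw [lt_div_iff₀ hx0]; linarith
  refine ⟨min 1 (ξ / (2 * Real.log (1 / x))), lt_min one_pos (by positivity), min_le_left _ _, ?_⟩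
  intro t m hm
  have ht : (0 : ℝ) ≤ t := Nat.cast_nonneg t
  have hmt : m ≤ t := by
    have : (m : ℝ) ≤ t := hm.trans (by
      calc min 1 (ξ / (2 * Real.log (1 / x))) * (t : ℝ) ≤ 1 * t :=
            mul_le_mul_of_nonneg_right (min_le_left _ _) ht
        _ = t := one_mul _)
    exact_mod_cast this
  have hmL : (m : ℝ) * Real.log (1 / x) ≤ ξ / 2 * t := by
    calc (m : ℝ) * Real.log (1 / x) ≤ (ξ / (2 * Real.log (1 / x)) * t) * Real.log (1 / x) := by
          apply mul_le_mul_of_nonneg_right _ hL.le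
          exact hm.trans (mul_le_mul_of_nonneg_right (min_le_right _ _) ht)
      _ = ξ / 2 * t := by field_simp
  have h1 : ((∑ j ∈ Finset.range (m + 1), t.choose j : ℕ) : ℝ) * x ^ m ≤ (1 + x) ^ t := by
    push_cast
    rw [Finset.sum_mul]
    have h2 : (1 + x) ^ t = ∑ j ∈ Finset.range (t + 1), (t.choose j : ℝ) * x ^ j := by
      rw [add_comm, add_pow]
      apply Finset.sum_congr rfl
      intro j _
      rw [one_pow, mul_one, mul_comm]
    rw [h2]
    calc ∑ j ∈ Finset.range (m + 1), (t.choose j : ℝ) * x ^ m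
        ≤ ∑ j ∈ Finset.range (m + 1), (t.choose j : ℝ) * x ^ j := by
          apply Finset.sum_le_sum
          intro j hj
          apply mul_le_mul_of_nonneg_left _ (Nat.cast_nonneg _)
          exact pow_le_pow_of_le_one hx0.le (by linarith) (by
            rw [Finset.mem_range] at hj; omega)
      _ ≤ ∑ j ∈ Finset.range (t + 1), (t.choose j : ℝ) * x ^ j := by
          apply Finset.sum_le_sum_of_subset_of_nonneg
          · intro j hj
            rw [Finset.mem_range] at hj ⊢
            omega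
          · intro j _ _
            positivity
  have h3 : (1 + x) ^ t ≤ Real.exp (ξ / 4 * t) := by
    calc (1 + x) ^ t ≤ (Real.exp x) ^ t := by
          apply pow_le_pow_left₀ (by linarith)
          rw [add_comm]; exact Real.add_one_le_exp x
      _ = Real.exp (t * x) := by rw [← Real.exp_nat_mul]
      _ ≤ Real.exp (ξ / 4 * t) := by
          apply Real.exp_le_exp.2
          nlinarith
  have h4 : (x ^ m)⁻¹ = Real.exp (m * Real.log (1 / x)) := by
    rw [Real.exp_nat_mul, Real.exp_log (by positivity), one_div, inv_pow]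
  have hxm : 0 < x ^ m := by positivity
  calc ((∑ j ∈ Finset.range (m + 1), t.choose j : ℕ) : ℝ)
      = (((∑ j ∈ Finset.range (m + 1), t.choose j : ℕ) : ℝ) * x ^ m) * (x ^ m)⁻¹ := by
        field_simp
    _ ≤ Real.exp (ξ / 4 * t) * (x ^ m)⁻¹ :=
        mul_le_mul_of_nonneg_right (h1.trans h3) (by positivity)
    _ = Real.exp (ξ / 4 * t + m * Real.log (1 / x)) := by rw [h4, ← Real.exp_add]
    _ ≤ Real.exp (ξ * t) := by
        apply Real.exp_le_exp.2
        have : 0 ≤ ξ * t := by positivity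
        linarith

end Pool.Agent.Helper80.DR
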