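import Pool.Agent.Helper80.DR.Tops

set_option autoImplicit false

/-!
# DR-13 Fibres: large fibres shatter a common set

Proof. `Y0 = B.image (low σ P)`; for `y ∈ Y0` the fibre `F_y = {tops σ P b : b ∈ B, low σ P b = y}` has
as many elements as the class of `y` (`b = (∏ tops) * low`). The classes with fewer than `θ`
elements contain at most `θ |Y0| ≤ |B|/2` elements, and `|F_y| ≤ 2^|P|`, so the set `Y1` of the `y` with
`|F_y| ≥ θ` has `2 * 2^|P| * |Y1| ≥ |B|`. For `y ∈ Y1`, `|F_y| > ∑_{j < s} C(|P|, j)`, so `F_y` shatters a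
set `S_y ⊆ P` with at least `s` elements (`Finset.card_le_card_shatterer`; every shattered set is a
subset of `P`, and there are only `∑_{j < s} C(|P|, j)` subsets with fewer than `s` elements).
Pigeonhole on `S_y` (`2^|P|` values). Shattering: for `H ⊆ S` there is `D ∈ F_y`, `D ∩ S = H`, and
`(∏ D) * y ∈ B`.
-/

namespace Pool.Agent.Helper80.DR

open Finset

private theorem tops_subset (σ : ℕ → ℕ) (P : Finset ℕ) (a : ℤ) : tops σ P a ⊆ P := by
  classical
  exact Finset.filter_subset _ _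

private theorem exists_shattered (P : Finset ℕ) (F : Finset (Finset ℕ)) (hF : ∀ D ∈ F, D ⊆ P)
    (s : ℕ) (h : ∑ j ∈ Finset.range s, P.card.choose j < F.card) :
    ∃ S ⊆ P, s ≤ S.card ∧ F.Shatters S := by
  by_contra hcon
  push Not at hcon
  have h1 : F.shatterer ⊆ (Finset.range s).biUnion (fun j => P.powersetCard j) := by
    intro S hS
    rw [mem_shatterer] at hS
    obtain ⟨D, hD, hSD⟩ := hS.exists_superset
    have hSP : S ⊆ P := hSD.trans (hF D hD)
    have h2 : S.card < s := by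
      by_contra h3
      exact hcon S hSP (not_lt.1 h3) hS
    rw [mem_biUnion]
    exact ⟨S.card, Finset.mem_range.2 h2, Finset.mem_powersetCard.2 ⟨hSP, rfl⟩⟩
  have h2 : F.shatterer.card ≤ ∑ j ∈ Finset.range s, P.card.choose j := by
    refine (Finset.card_le_card h1).trans (Finset.card_biUnion_le.trans (le_of_eq ?_))
    refine Finset.sum_congr rfl fun j _ => ?_
    rw [Finset.card_powersetCard]
  have h3 := Finset.card_le_card_shatterer F
  omega

/-- [DR-13] -/
theorem fibres (σ : ℕ → ℕ) (P : Finset ℕ) (hP : ∀ p ∈ P, p.Prime) (B : Finset ℤ)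
    (h0 : (0 : ℤ) ∉ B) (hne : B.Nonempty) (θ s : ℕ)
    (hcl : 2 * θ * (B.image (low σ P)).card ≤ B.card)
    (hθ : ∑ j ∈ Finset.range s, P.card.choose j < θ) :
    ∃ S ⊆ P, s ≤ S.card ∧ ∃ Y : Finset ℤ, Y.Nonempty ∧ Y.card ≤ B.card ∧
      B.card ≤ 2 * 4 ^ P.card * Y.card ∧
      ∀ y ∈ Y, ∀ H ⊆ S, ∃ D ⊆ P, D ∩ S = H ∧ (∏ p ∈ D, (p : ℤ)) * y ∈ B := by
  classical
  set I : Finset ℤ := B.image (low σ P) with hI
  let cl : ℤ → Finset ℤ := fun y => B.filter (fun b => low σ P b = y)
  let F : ℤ → Finset (Finset ℕ) := fun y => (cl y).image (tops σ P)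
  have hb0 : ∀ b ∈ B, b ≠ 0 := fun b hb h => h0 (h ▸ hb)
  have hcard : ∀ y, (F y).card = (cl y).card := by
    intro y
    refine Finset.card_image_of_injOn ?_
    intro a ha b hb hab
    have ha' := Finset.mem_filter.1 (Finset.mem_coe.1 ha)
    have hb' := Finset.mem_filter.1 (Finset.mem_coe.1 hb)
    rw [← prod_tops_mul_low σ P hP a (hb0 a ha'.1), ← prod_tops_mul_low σ P hP b (hb0 b hb'.1),
      ha'.2, hb'.2]
    rw [hab]
  have hFP : ∀ y, ∀ D ∈ F y, D ⊆ P := by
    intro y D hD
    obtain ⟨b, _, rfl⟩ := Finset.mem_image.1 hD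
    exact tops_subset σ P b
  have hFle : ∀ y, (cl y).card ≤ 2 ^ P.card := by
    intro y
    rw [← hcard, ← Finset.card_powerset]
    exact Finset.card_le_card fun D hD => Finset.mem_powerset.2 (hFP y D hD)
  have hsum : B.card = ∑ y ∈ I, (cl y).card :=
    Finset.card_eq_sum_card_image (low σ P) B
  let Y1 : Finset ℤ := I.filter (fun y => θ ≤ (cl y).card)
  have h1 : B.card ≤ Y1.card * 2 ^ P.card + I.card * θ := by
    rw [hsum, ← Finset.sum_filter_add_sum_filter_not I (fun y => θ ≤ (cl y).card)]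
    refine Nat.add_le_add ?_ ?_
    · rw [← smul_eq_mul]
      exact Finset.sum_le_card_nsmul _ _ _ fun y _ => hFle y
    · refine (Finset.sum_le_card_nsmul _ _ θ fun y hy => ?_).trans ?_
      · exact (not_le.1 (Finset.mem_filter.1 hy).2).le
      · rw [smul_eq_mul]
        exact Nat.mul_le_mul_right _ (Finset.card_le_card (Finset.filter_subset _ _))
  have h2 : B.card ≤ 2 * Y1.card * 2 ^ P.card := by
    have h3 : 2 * θ * I.card = 2 * (I.card * θ) := by ring
    have h4 : 2 * Y1.card * 2 ^ P.card = 2 * (Y1.card * 2 ^ P.card) := by ring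
    rw [h4]
    rw [h3] at hcl
    omega
  have h3 : ∀ y : ℤ, ∃ S : Finset ℕ, y ∈ Y1 → (S ⊆ P ∧ s ≤ S.card ∧ (F y).Shatters S) := by
    intro y
    by_cases hy : y ∈ Y1
    · have h4 : θ ≤ (F y).card := by
        rw [hcard]
        exact (Finset.mem_filter.1 hy).2
      obtain ⟨S, hS, hsS, hsh⟩ := exists_shattered P (F y) (hFP y) s (lt_of_lt_of_le hθ h4)
      exact ⟨S, fun _ => ⟨hS, hsS, hsh⟩⟩
    · exact ⟨∅, fun h => absurd h hy⟩
  choose Sf hSf using h3
  obtain ⟨S, hS, hmax⟩ := Finset.exists_max_image P.powerset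
    (fun S => (Y1.filter (fun y => Sf y = S)).card) ⟨∅, Finset.empty_mem_powerset P⟩
  have h5 : Y1.card ≤ (Y1.filter (fun y => Sf y = S)).card * P.powerset.card := by
    refine Finset.card_le_mul_card_image_of_maps_to (f := Sf) ?_ _ ?_
    · intro y hy
      exact Finset.mem_powerset.2 (hSf y hy).1
    · intro T hT
      exact hmax T hT
  rw [Finset.card_powerset] at h5
  have hB : 0 < B.card := Finset.card_pos.2 hne
  have h6 : B.card ≤ 2 * 4 ^ P.card * (Y1.filter (fun y => Sf y = S)).card := by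
    refine h2.trans ?_
    have h7 : (4 : ℕ) ^ P.card = 2 ^ P.card * 2 ^ P.card := by
      rw [← mul_pow]
      norm_num
    rw [h7]
    calc 2 * Y1.card * 2 ^ P.card
        ≤ 2 * ((Y1.filter (fun y => Sf y = S)).card * 2 ^ P.card) * 2 ^ P.card := by gcongr
      _ = 2 * (2 ^ P.card * 2 ^ P.card) * (Y1.filter (fun y => Sf y = S)).card := by ring
  have hYne : (Y1.filter (fun y => Sf y = S)).Nonempty := by
    rw [← Finset.card_pos]
    rcases Nat.eq_zero_or_pos (Y1.filter (fun y => Sf y = S)).card with h | h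
    · rw [h, mul_zero] at h6
      omega
    · exact h
  have hY : ∀ y ∈ Y1.filter (fun y => Sf y = S), s ≤ S.card ∧ (F y).Shatters S := by
    intro y hy
    have hy' := Finset.mem_filter.1 hy
    have := hSf y hy'.1
    rw [hy'.2] at this
    exact this.2
  refine ⟨S, Finset.mem_powerset.1 hS, ?_, Y1.filter (fun y => Sf y = S), hYne, ?_, h6, ?_⟩
  · obtain ⟨y, hy⟩ := hYne
    exact (hY y hy).1
  · refine (Finset.card_le_card (Finset.filter_subset _ _)).trans ?_
    refine (Finset.card_le_card (Finset.filter_subset _ _)).trans ?_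
    exact Finset.card_image_le
  · intro y hy H hH
    obtain ⟨D, hD, hDH⟩ := (hY y hy).2 hH
    obtain ⟨b, hb, rfl⟩ := Finset.mem_image.1 hD
    have hb' := Finset.mem_filter.1 hb
    refine ⟨tops σ P b, tops_subset σ P b, ?_, ?_⟩
    · rw [Finset.inter_comm]
      exact hDH
    · rw [← hb'.2, prod_tops_mul_low σ P hP b (hb0 b hb'.1)]
      exact hb'.1

end Pool.Agent.Helper80.DR
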