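import Pool.Agent.Helper80.DR.Defs

set_option autoImplicit false

/-!
# DR-8 Tops: elementary facts on top primes

* `top_choice`: for every prime `p` the elements `a ≠ 0` with `p ∣ a` have `v_p(a)` odd or even;
  choose `σ p = 0` if at least half of them are odd, else `σ p = 1`.
* `tops_div`: `D ⊆ tops σ P a`, `a ≠ 0`: `∏ D ∣ a` (distinct primes dividing `a`). For a prime
  `p ∈ P`: `v_p (a / ∏ D) = v_p a - [p ∈ D]`. If `p ∈ D` then `v_p a ≥ 1`, the parity changes, so `p`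
  is not a top prime of `a / ∏ D`; if `p ∉ D` nothing changes (`p ∣ a / ∏ D ↔ p ∣ a`).
* `low_div`: `low σ P (a / ∏ D) = low σ P a` for `D ⊆ tops σ P a`.
* `prod_tops_mul_low`: `(∏ tops) * low = a`.
* `hull`: for `u` in the image of `B` under `low σ P` choose `a ∈ B` with `low σ P a = u` and
  `R ⊆ tops σ P a` with `|R| = r`. The elements `u * ∏ D = a / ∏ (tops σ P a \ D)`, `D ⊆ R`, are in
  `Q`, and `(u, D)` is determined by such an element `z`: `D = tops σ P z`, `u = low σ P z`.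
-/

namespace Pool.Agent.Helper80.DR

open Finset Pool.Agent.Helper80.DC

open Classical in
theorem mem_tops (σ : ℕ → ℕ) (P : Finset ℕ) (a : ℤ) (p : ℕ) :
    p ∈ tops σ P a ↔ p ∈ P ∧ Top σ p a := by
  unfold tops
  rw [Finset.mem_filter]

/-- [DR-8a] -/
theorem top_choice (A : Finset ℤ) (T : Finset ℕ) : ∃ σ : ℕ → ℕ, ∀ p ∈ T,
    (A.filter (fun a => (p : ℤ) ∣ a)).card ≤ 2 * (A.filter (fun a => p ∈ tops σ T a)).card := by
  classical
  have hex : ∀ p : ℕ, ∃ s : ℕ, (A.filter (fun a => (p : ℤ) ∣ a)).card ≤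
      2 * (A.filter (fun a => (p : ℤ) ∣ a ∧ (padicValInt p a + s) % 2 = 1)).card := by
    intro p
    have hsplit : (A.filter (fun a => (p : ℤ) ∣ a)).card =
        (A.filter (fun a => (p : ℤ) ∣ a ∧ (padicValInt p a + 0) % 2 = 1)).card +
        (A.filter (fun a => (p : ℤ) ∣ a ∧ (padicValInt p a + 1) % 2 = 1)).card := by
      rw [← Finset.card_union_of_disjoint]
      · congr 1
        ext a
        simp only [Finset.mem_filter, Finset.mem_union]
        constructor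
        · rintro ⟨h1, h2⟩
          rcases Nat.mod_two_eq_zero_or_one (padicValInt p a) with h3 | h3
          · right
            exact ⟨h1, h2, by omega⟩
          · left
            exact ⟨h1, h2, by omega⟩
        · rintro (⟨h1, h2, _⟩ | ⟨h1, h2, _⟩)
          · exact ⟨h1, h2⟩
          · exact ⟨h1, h2⟩
      · rw [Finset.disjoint_left]
        intro a h1 h2
        have h1' := (Finset.mem_filter.mp h1).2.2
        have h2' := (Finset.mem_filter.mp h2).2.2
        omega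
    rcases le_total (A.filter (fun a => (p : ℤ) ∣ a ∧ (padicValInt p a + 1) % 2 = 1)).card
      (A.filter (fun a => (p : ℤ) ∣ a ∧ (padicValInt p a + 0) % 2 = 1)).card with h | h
    · exact ⟨0, by omega⟩
    · exact ⟨1, by omega⟩
  choose σ hσ using hex
  refine ⟨σ, fun p hp => ?_⟩
  refine (hσ p).trans (le_of_eq ?_)
  congr 2
  ext a
  simp only [Finset.mem_filter, mem_tops, Top, hp, true_and]

theorem prod_cast_ne (D : Finset ℕ) (hD : ∀ p ∈ D, p.Prime) : (∏ p ∈ D, (p : ℤ)) ≠ 0 := by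
  rw [Finset.prod_ne_zero_iff]
  intro p hp
  exact_mod_cast (hD p hp).ne_zero

theorem val_prod_mul (D : Finset ℕ) (hD : ∀ p ∈ D, p.Prime) (p : ℕ) (hp : p.Prime) (b : ℤ)
    (hb : b ≠ 0) : padicValInt p ((∏ q ∈ D, (q : ℤ)) * b) =
      (if p ∈ D then 1 else 0) + padicValInt p b := by
  classical
  haveI : Fact p.Prime := ⟨hp⟩
  induction D using Finset.induction_on with
  | empty => simp
  | insert q s hq ih =>
    have hs : ∀ x ∈ s, x.Prime := fun x hx => hD x (Finset.mem_insert_of_mem hx)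
    have hqp : q.Prime := hD q (Finset.mem_insert_self _ _)
    haveI : Fact q.Prime := ⟨hqp⟩
    rw [Finset.prod_insert hq, mul_assoc,
      padicValInt.mul (by exact_mod_cast hqp.ne_zero) (mul_ne_zero (prod_cast_ne s hs) hb), ih hs,
      padicValInt.of_nat]
    by_cases h : p = q
    · subst h
      rw [padicValNat_self, if_neg hq, if_pos (Finset.mem_insert_self _ _)]
      ring
    · rw [padicValNat_primes h]
      by_cases h2 : p ∈ s
      · rw [if_pos h2, if_pos (Finset.mem_insert_of_mem h2)]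
        ring
      · rw [if_neg h2, if_neg (by rw [Finset.mem_insert]; tauto), zero_add]

theorem top_iff (σ : ℕ → ℕ) (p : ℕ) (hp : p.Prime) (x : ℤ) (hx : x ≠ 0) :
    Top σ p x ↔ 1 ≤ padicValInt p x ∧ (padicValInt p x + σ p) % 2 = 1 := by
  haveI : Fact p.Prime := ⟨hp⟩
  unfold Top
  have h := padicValInt_dvd_iff (p := p) 1 x
  rw [pow_one] at h
  rw [h]
  simp only [hx, false_or]

/-- [DR-8b'] the top primes outside of `D` do not change if a set `D ⊆ P` of other primes is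
divided out: `P'` disjoint from `D`. -/
theorem tops_div_disjoint (σ : ℕ → ℕ) (P P' : Finset ℕ) (hP : ∀ p ∈ P, p.Prime)
    (hP' : ∀ p ∈ P', p.Prime) (b : ℤ) (hb : b ≠ 0) (D : Finset ℕ) (hD : D ⊆ P)
    (hdisj : Disjoint D P') : tops σ P' ((∏ p ∈ D, (p : ℤ)) * b) = tops σ P' b := by
  classical
  have hDp : ∀ p ∈ D, p.Prime := fun p hp => hP p (hD hp)
  ext p
  rw [mem_tops, mem_tops]
  refine and_congr_right (fun hp => ?_)
  have hpD : p ∉ D := fun h => (Finset.disjoint_left.mp hdisj h) hp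
  rw [top_iff σ p (hP' p hp) _ (mul_ne_zero (prod_cast_ne D hDp) hb), top_iff σ p (hP' p hp) b hb,
    val_prod_mul D hDp p (hP' p hp) b hb, if_neg hpD, zero_add]

theorem prod_dvd_of_tops (σ : ℕ → ℕ) (P : Finset ℕ) (hP : ∀ p ∈ P, p.Prime) (a : ℤ)
    (D : Finset ℕ) (hD : D ⊆ tops σ P a) : (∏ p ∈ D, (p : ℤ)) ∣ a := by
  have h1 : ∀ p ∈ D, p ∈ P ∧ Top σ p a := fun p hp => (mem_tops σ P a p).mp (hD hp)
  have h2 : ∏ p ∈ D, p ∣ a.natAbs := by
    refine Finset.prod_primes_dvd a.natAbs (fun p hp => (hP p (h1 p hp).1).prime) (fun p hp => ?_)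
    exact Int.natCast_dvd.mp (h1 p hp).2.1
  have h3 : ((∏ p ∈ D, p : ℕ) : ℤ) ∣ a := Int.natCast_dvd.mpr h2
  rwa [Nat.cast_prod] at h3

/-- [DR-8b] -/
theorem tops_div (σ : ℕ → ℕ) (P : Finset ℕ) (hP : ∀ p ∈ P, p.Prime) (a : ℤ) (ha : a ≠ 0)
    (D : Finset ℕ) (hD : D ⊆ tops σ P a) :
    (∏ p ∈ D, (p : ℤ)) ∣ a ∧ a / (∏ p ∈ D, (p : ℤ)) ≠ 0 ∧
      tops σ P (a / (∏ p ∈ D, (p : ℤ))) = tops σ P a \ D ∧
      low σ P (a / (∏ p ∈ D, (p : ℤ))) = low σ P a := by
  classical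
  have hdvd := prod_dvd_of_tops σ P hP a D hD
  have hDp : ∀ p ∈ D, p.Prime := fun p hp => hP p ((mem_tops σ P a p).mp (hD hp)).1
  have hm := prod_cast_ne D hDp
  obtain ⟨b, hb⟩ := hdvd
  have hb0 : b ≠ 0 := by
    rintro rfl
    rw [mul_zero] at hb
    exact ha hb
  have hdiv : a / (∏ p ∈ D, (p : ℤ)) = b := by
    rw [hb, Int.mul_ediv_cancel_left _ hm]
  have htops : tops σ P (a / (∏ p ∈ D, (p : ℤ))) = tops σ P a \ D := by
    rw [hdiv]
    ext p
    rw [Finset.mem_sdiff]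
    by_cases hpP : p ∈ P
    · have hp := hP p hpP
      have hv := val_prod_mul D hDp p hp b hb0
      rw [← hb] at hv
      by_cases hpD : p ∈ D
      · have h1 := ((mem_tops σ P a p).mp (hD hpD)).2
        rw [top_iff σ p hp a ha, hv, if_pos hpD] at h1
        rw [mem_tops, top_iff σ p hp b hb0]
        constructor
        · rintro ⟨_, _, h2⟩
          omega
        · rintro ⟨_, h2⟩
          exact absurd hpD h2
      · rw [mem_tops, mem_tops, top_iff σ p hp b hb0, top_iff σ p hp a ha, hv, if_neg hpD,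
          zero_add]
        tauto
    · rw [mem_tops, mem_tops]
      tauto
  refine ⟨⟨b, hb⟩, by rw [hdiv]; exact hb0, htops, ?_⟩
  unfold low
  rw [htops]
  have hnn : (0 : ℤ) ≤ ∏ p ∈ D, (p : ℤ) := Finset.prod_nonneg (fun p _ => Int.natCast_nonneg p)
  rw [Int.ediv_ediv_of_nonneg hnn, mul_comm, Finset.prod_sdiff hD]

/-- [DR-8c] -/
theorem prod_tops_mul_low (σ : ℕ → ℕ) (P : Finset ℕ) (hP : ∀ p ∈ P, p.Prime) (a : ℤ)
    (ha : a ≠ 0) : (∏ p ∈ tops σ P a, (p : ℤ)) * low σ P a = a := by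
  have hdvd := prod_dvd_of_tops σ P hP a (tops σ P a) (Finset.Subset.refl _)
  unfold low
  exact Int.mul_ediv_cancel' hdvd

/-- [DR-8d] the hull lemma -/
theorem hull (σ : ℕ → ℕ) (P : Finset ℕ) (hP : ∀ p ∈ P, p.Prime) (B Q : Finset ℤ)
    (h0 : (0 : ℤ) ∉ B) (r : ℕ) (hr : ∀ a ∈ B, r ≤ (tops σ P a).card)
    (hQ : ∀ a ∈ B, ∀ D ⊆ tops σ P a, a / (∏ p ∈ D, (p : ℤ)) ∈ Q) :
    (B.image (low σ P)).card * 2 ^ r ≤ Q.card := by
  classical
  have h1 : ∀ u : ℤ, ∃ a : ℤ, u ∈ B.image (low σ P) → a ∈ B ∧ low σ P a = u := by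
    intro u
    by_cases hu : u ∈ B.image (low σ P)
    · obtain ⟨a, ha, hau⟩ := Finset.mem_image.mp hu
      exact ⟨a, fun _ => ⟨ha, hau⟩⟩
    · exact ⟨0, fun h => absurd h hu⟩
  choose f hf using h1
  have h2 : ∀ a : ℤ, ∃ R : Finset ℕ, a ∈ B → R ⊆ tops σ P a ∧ R.card = r := by
    intro a
    by_cases ha : a ∈ B
    · obtain ⟨R, hR, hRc⟩ := Finset.exists_subset_card_eq (hr a ha)
      exact ⟨R, fun _ => ⟨hR, hRc⟩⟩
    · exact ⟨∅, fun h => absurd h ha⟩
  choose R hR using h2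
  set S : Finset (Σ _ : ℤ, Finset ℕ) :=
    (B.image (low σ P)).sigma (fun u => (R (f u)).powerset) with hS
  have hScard : S.card = (B.image (low σ P)).card * 2 ^ r := by
    rw [hS, Finset.card_sigma, Finset.sum_const_nat (m := 2 ^ r)]
    intro u hu
    rw [Finset.card_powerset, (hR (f u) (hf u hu).1).2]
  rw [← hScard]
  have hval : ∀ q ∈ S, ((f q.1) / (∏ p ∈ tops σ P (f q.1) \ q.2, (p : ℤ))) ∈ Q ∧
      tops σ P ((f q.1) / (∏ p ∈ tops σ P (f q.1) \ q.2, (p : ℤ))) = q.2 ∧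
      low σ P ((f q.1) / (∏ p ∈ tops σ P (f q.1) \ q.2, (p : ℤ))) = q.1 := by
    intro q hq
    rw [hS, Finset.mem_sigma, Finset.mem_powerset] at hq
    obtain ⟨hq1, hq2⟩ := hq
    obtain ⟨hfB, hflow⟩ := hf q.1 hq1
    have hsub : q.2 ⊆ tops σ P (f q.1) := hq2.trans (hR (f q.1) hfB).1
    have hne : f q.1 ≠ 0 := fun h => h0 (h ▸ hfB)
    obtain ⟨_, _, ht, hl⟩ := tops_div σ P hP (f q.1) hne (tops σ P (f q.1) \ q.2)
      Finset.sdiff_subset
    refine ⟨hQ _ hfB _ Finset.sdiff_subset, ?_, ?_⟩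
    · rw [ht, Finset.sdiff_sdiff_eq_self hsub]
    · rw [hl, hflow]
  refine Finset.card_le_card_of_injOn
    (fun q => (f q.1) / (∏ p ∈ tops σ P (f q.1) \ q.2, (p : ℤ))) (fun q hq => (hval q hq).1) ?_
  intro q hq q' hq' heq
  simp only at heq
  obtain ⟨_, ht, hl⟩ := hval q hq
  obtain ⟨_, ht', hl'⟩ := hval q' hq'
  rw [heq] at ht hl
  have e1 : q.1 = q'.1 := hl.symm.trans hl'
  have e2 : q.2 = q'.2 := ht.symm.trans ht'
  obtain ⟨u, D⟩ := q
  obtain ⟨u', D'⟩ := q'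
  simp only at e1 e2
  rw [e1, e2]

end Pool.Agent.Helper80.DR
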