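import Pool.Agent.Helper80.DR.Core

set_option autoImplicit false

/-!
# DR-7 Growth: from the structure to the `k`-fold sumset

Proof. `ε2 = ε / (k+1)`, `ε1 = min (ε2 / (k+3)) 1`, `K` from `core ε1 (δ/(k+1))`. Write `jA` for the
image of `Fintype.piFinset (fun _ : Fin j => A)` under the sum, `N = |A|`. Claim for `j ≤ k`:
`|jA| ≥ N^(j - j ε2)`. `j = 0`: `|0A| = 1`. Step: `(j+1)A = jA + A`, `|jA| ≤ N^j`, `|Y| ≤ N`, so
`(δ/(k+1)) log (|jA||Y|) ≤ δ log N ≤ |S|` and `core` gives
`(|jA||Y|)^(1-ε1) ≤ N^ε1 |(j+1)A|`, so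
`|(j+1)A| ≥ N^((j + 1 - j ε2 - ε1)(1-ε1) - ε1) ≥ N^(j + 1 - j ε2 - (j+3) ε1) ≥ N^(j+1-(j+1)ε2)`.
-/

namespace Pool.Agent.Helper80.DR

open Finset Pool.Agent.Helper80.DC

/-- [DR-7] -/
theorem growth (k : ℕ) (ε : ℝ) (hε : 0 < ε) : ∃ ε1 : ℝ, 0 < ε1 ∧ ∀ δ : ℝ, 0 < δ →
    ∃ K : ℕ, 0 < K ∧ ∀ A : Finset ℤ, A.Nonempty → Struct A K ε1 δ →
      (A.card : ℝ) ^ ((k : ℝ) - ε) ≤
        (((Fintype.piFinset (fun _ : Fin k => A)).image
              (fun f : Fin k → ℤ => ∑ i, f i)).card : ℝ) := by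
  set ε2 : ℝ := ε / ((k : ℝ) + 1) with hε2
  have hk1 : (0 : ℝ) < (k : ℝ) + 1 := by positivity
  have hk3 : (0 : ℝ) < (k : ℝ) + 3 := by positivity
  have hε2pos : 0 < ε2 := by positivity
  have hkε2 : (k : ℝ) * ε2 ≤ ε := by
    rw [hε2, mul_div_assoc', div_le_iff₀ hk1]
    nlinarith
  set ε1 : ℝ := min (ε2 / ((k : ℝ) + 3)) 1 with hε1
  have hε1pos : 0 < ε1 := lt_min (by positivity) one_pos
  have hε1le : ε1 ≤ 1 := min_le_right _ _
  have hε1ε2 : ε1 * ((k : ℝ) + 3) ≤ ε2 := by
    have h1 : ε1 ≤ ε2 / ((k : ℝ) + 3) := min_le_left _ _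
    rwa [le_div_iff₀ hk3] at h1
  refine ⟨ε1, hε1pos, fun δ hδ => ?_⟩
  obtain ⟨K, hK, hcore⟩ := core ε1 (δ / ((k : ℝ) + 1)) hε1pos (by positivity)
  refine ⟨K, hK, fun A hA hS => ?_⟩
  obtain ⟨q, Y, S, E, e, hYne, hYlow, hYA, hEcard, hSp, hSδ, hinj, hq0, heE, hEp, hmem⟩ := hS
  have hN1 : (1 : ℝ) ≤ A.card := by exact_mod_cast hA.card_pos
  have hN0 : (0 : ℝ) < A.card := by linarith
  have hlogN : 0 ≤ Real.log A.card := Real.log_nonneg hN1
  have hY1 : (1 : ℝ) ≤ Y.card := by exact_mod_cast hYne.card_pos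
  have hYN : (Y.card : ℝ) ≤ A.card := by exact_mod_cast hYA
  have hne : ∀ j : ℕ, ((Fintype.piFinset (fun _ : Fin j => A)).image
      (fun f : Fin j → ℤ => ∑ i, f i)).Nonempty := by
    intro j
    apply Finset.Nonempty.image
    rw [Fintype.piFinset_nonempty]
    intro i
    exact hA
  have key : ∀ j : ℕ, j ≤ k → (A.card : ℝ) ^ ((j : ℝ) - j * ε2) ≤
      (((Fintype.piFinset (fun _ : Fin j => A)).image
        (fun f : Fin j → ℤ => ∑ i, f i)).card : ℝ) := by
    intro j
    induction j with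
    | zero =>
      intro _
      have h0 : (A.card : ℝ) ^ (((0 : ℕ) : ℝ) - ((0 : ℕ) : ℝ) * ε2) = 1 := by simp
      rw [h0]
      exact_mod_cast (hne 0).card_pos
    | succ j ih =>
      intro hj
      have ih' := ih (by omega)
      set X : Finset ℤ := (Fintype.piFinset (fun _ : Fin j => A)).image
        (fun f : Fin j → ℤ => ∑ i, f i) with hX
      have hXne : X.Nonempty := hne j
      have hX1 : (1 : ℝ) ≤ X.card := by exact_mod_cast hXne.card_pos
      have hXle : (X.card : ℝ) ≤ (A.card : ℝ) ^ j := by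
        have h3 : X.card ≤ A.card ^ j := by
          refine Finset.card_image_le.trans ?_
          rw [Fintype.card_piFinset]
          simp
        exact_mod_cast h3
      have hjk : (j : ℝ) + 1 ≤ (k : ℝ) := by exact_mod_cast hj
      have hlogX : Real.log X.card ≤ j * Real.log A.card := by
        have h3 := Real.log_le_log (by linarith) hXle
        rwa [Real.log_pow] at h3
      have hlogY : Real.log Y.card ≤ Real.log A.card := Real.log_le_log (by linarith) hYN
      have hlog : δ / ((k : ℝ) + 1) * Real.log ((X.card : ℝ) * Y.card) ≤ (S.card : ℝ) := by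
        refine le_trans ?_ hSδ
        rw [Real.log_mul (by linarith) (by linarith), div_mul_eq_mul_div, div_le_iff₀ hk1]
        have h3 : Real.log X.card + Real.log Y.card ≤ Real.log A.card * ((k : ℝ) + 1) := by
          nlinarith
        calc δ * (Real.log X.card + Real.log Y.card) ≤ δ * (Real.log A.card * ((k : ℝ) + 1)) :=
              mul_le_mul_of_nonneg_left h3 hδ.le
          _ = δ * Real.log A.card * ((k : ℝ) + 1) := by ring
      have hc := hcore q X Y A S E e hXne hYne hSp hlog hinj hq0 heE hEp hmem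
      -- the sumset
      have hsub : Finset.image₂ (fun x a => x + a) X A ⊆
          (Fintype.piFinset (fun _ : Fin (j + 1) => A)).image
            (fun f : Fin (j + 1) → ℤ => ∑ i, f i) := by
        intro w hw
        rw [Finset.mem_image₂] at hw
        obtain ⟨x, hx, a, ha, rfl⟩ := hw
        rw [hX, Finset.mem_image] at hx
        obtain ⟨f, hf, rfl⟩ := hx
        rw [Finset.mem_image]
        refine ⟨Fin.snoc (α := fun _ => ℤ) f a, ?_, ?_⟩
        · rw [Fintype.mem_piFinset] at hf ⊢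
          intro i
          refine Fin.lastCases ?_ (fun i => ?_) i
          · rw [Fin.snoc_last]
            exact ha
          · rw [Fin.snoc_castSucc]
            exact hf i
        · rw [Fin.sum_univ_castSucc]
          simp only [Fin.snoc_castSucc, Fin.snoc_last]
      have hcard : ((Finset.image₂ (fun x a => x + a) X A).card : ℝ) ≤
          (((Fintype.piFinset (fun _ : Fin (j + 1) => A)).image
            (fun f : Fin (j + 1) → ℤ => ∑ i, f i)).card : ℝ) := by
        exact_mod_cast Finset.card_le_card hsub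
      set W : ℝ := (((Fintype.piFinset (fun _ : Fin (j + 1) => A)).image
            (fun f : Fin (j + 1) → ℤ => ∑ i, f i)).card : ℝ) with hW
      have hW0 : 0 ≤ W := by positivity
      have hEW : ((X.card : ℝ) * Y.card) ^ (1 - ε1) ≤ (A.card : ℝ) ^ ε1 * W := by
        refine hc.trans ?_
        exact mul_le_mul hEcard hcard (by positivity) (Real.rpow_nonneg hN0.le _)
      have hXY : (A.card : ℝ) ^ ((j : ℝ) + 1 - j * ε2 - ε1) ≤ (X.card : ℝ) * Y.card := by
        have e1 : (A.card : ℝ) ^ ((j : ℝ) + 1 - j * ε2 - ε1) =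
            (A.card : ℝ) ^ ((j : ℝ) - j * ε2) * (A.card : ℝ) ^ (1 - ε1) := by
          rw [← Real.rpow_add hN0]
          congr 1
          ring
        rw [e1]
        exact mul_le_mul ih' hYlow (Real.rpow_nonneg hN0.le _) (by positivity)
      have hj0 : (0 : ℝ) ≤ (j : ℝ) := by positivity
      have hexp : (A.card : ℝ) ^ ε1 * (A.card : ℝ) ^ (((j + 1 : ℕ) : ℝ) - ((j + 1 : ℕ) : ℝ) * ε2) ≤
          (A.card : ℝ) ^ ε1 * W := by
        refine le_trans ?_ hEW
        rw [← Real.rpow_add hN0]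
        calc (A.card : ℝ) ^ (ε1 + (((j + 1 : ℕ) : ℝ) - ((j + 1 : ℕ) : ℝ) * ε2))
            ≤ (A.card : ℝ) ^ (((j : ℝ) + 1 - j * ε2 - ε1) * (1 - ε1)) := by
              apply Real.rpow_le_rpow_of_exponent_le hN1
              push_cast
              have h1 : 0 ≤ ε1 * (j * ε2) := by positivity
              have h2 : ε1 * ((j : ℝ) + 3) ≤ ε2 := by nlinarith
              nlinarith
          _ = ((A.card : ℝ) ^ ((j : ℝ) + 1 - j * ε2 - ε1)) ^ (1 - ε1) := Real.rpow_mul hN0.le _ _
          _ ≤ ((X.card : ℝ) * Y.card) ^ (1 - ε1) :=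
              Real.rpow_le_rpow (Real.rpow_nonneg hN0.le _) hXY (by linarith)
      exact le_of_mul_le_mul_left hexp (Real.rpow_pos_of_pos hN0 _)
  refine le_trans ?_ (key k le_rfl)
  apply Real.rpow_le_rpow_of_exponent_le hN1
  linarith

end Pool.Agent.Helper80.DR
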