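import Mathlib

set_option autoImplicit false

/-!
# DR-12 BadPrimes

Proof. Different finite sets of primes have different products (`Nat.primeFactors_prod`). For
`i ≠ j`: `N = |∏ τ i - ∏ τ j|` satisfies `0 < N < π^m` (both products are between `1` and `π^m`;
`m ≥ 1` since `τ i ≠ τ j`). The product of the primes of `P'` dividing `N` divides `N`, and each is
`> π`, so there are fewer than `m` of them (`π ≥ 2`). Remove them for all `i ≠ j`: at most `K^2 m`
primes. `p ∤ ∏ τ i` for `p ∈ P'`, since `p` is larger than all primes in `τ i`.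
-/

namespace Pool.Agent.Helper80.DR

open Finset

private theorem bad_card (m π : ℕ) (s t : Finset ℕ) (hst : s ≠ t) (hs : s.card = m)
    (ht : t.card = m) (hsp : ∀ p ∈ s, p.Prime ∧ p ≤ π) (htp : ∀ p ∈ t, p.Prime ∧ p ≤ π)
    (Q : Finset ℕ) (hQ : ∀ p ∈ Q, p.Prime ∧ π < p)
    (hdvd : ∀ p ∈ Q, (p : ℤ) ∣ (((∏ x ∈ s, x : ℕ) : ℤ) - ((∏ x ∈ t, x : ℕ) : ℤ))) :
    Q.card ≤ m := by
  set a : ℕ := ∏ x ∈ s, x with ha
  set b : ℕ := ∏ x ∈ t, x with hb
  have hab : a ≠ b := by
    intro h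
    apply hst
    have h1 : a.primeFactors = s := Nat.primeFactors_prod (fun p hp => (hsp p hp).1)
    have h2 : b.primeFactors = t := Nat.primeFactors_prod (fun p hp => (htp p hp).1)
    rw [← h1, ← h2, h]
  have ha1 : 1 ≤ a := Finset.prod_pos (fun p hp => (hsp p hp).1.pos)
  have hb1 : 1 ≤ b := Finset.prod_pos (fun p hp => (htp p hp).1.pos)
  have ha2 : a ≤ π ^ m := by
    rw [← hs]
    exact Finset.prod_le_pow_card s _ π (fun p hp => (hsp p hp).2)
  have hb2 : b ≤ π ^ m := by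
    rw [← ht]
    exact Finset.prod_le_pow_card t _ π (fun p hp => (htp p hp).2)
  set N : ℕ := ((a : ℤ) - (b : ℤ)).natAbs with hN
  have hN0 : 0 < N := by
    rw [hN]
    apply Int.natAbs_pos.mpr
    intro h
    apply hab
    omega
  have hNlt : N < π ^ m := by
    rw [hN]
    omega
  have hprod : (∏ p ∈ Q, p) ∣ N := by
    apply Finset.prod_primes_dvd
    · intro p hp
      exact (hQ p hp).1.prime
    · intro p hp
      have := hdvd p hp
      exact Int.natCast_dvd.mp this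
  have hle : (π + 1) ^ Q.card ≤ ∏ p ∈ Q, p :=
    Finset.pow_card_le_prod Q _ (π + 1) (fun p hp => (hQ p hp).2)
  by_contra hcon
  push Not at hcon
  have h1 : (π + 1) ^ m ≤ (π + 1) ^ Q.card := Nat.pow_le_pow_right (by omega) hcon.le
  have h2 : ∏ p ∈ Q, p ≤ N := Nat.le_of_dvd hN0 hprod
  have h3 : π ^ m ≤ (π + 1) ^ m := Nat.pow_le_pow_left (by omega) m
  omega

/-- [DR-12] -/
theorem badPrimes (K m π : ℕ) (τ : Fin K → Finset ℕ) (hinj : Function.Injective τ)
    (hτ : ∀ i, (τ i).card = m) (hτp : ∀ i, ∀ p ∈ τ i, p.Prime ∧ p ≤ π) (P' : Finset ℕ)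
    (hP' : ∀ p ∈ P', p.Prime ∧ π < p) :
    ∃ P'' ⊆ P', P'.card ≤ P''.card + K ^ 2 * m ∧
      (∀ p ∈ P'', Function.Injective (fun i => ((∏ x ∈ τ i, (x : ℤ) : ℤ) : ZMod p))) ∧
      ∀ p ∈ P'', ∀ i, ((∏ x ∈ τ i, (x : ℤ) : ℤ) : ZMod p) ≠ 0 := by
  classical
  set c : Fin K → ℤ := fun i => ∏ x ∈ τ i, (x : ℤ) with hc
  have hcc : ∀ i, c i = ((∏ x ∈ τ i, x : ℕ) : ℤ) := by
    intro i
    simp [hc]
  set D : Finset (Fin K × Fin K) := Finset.univ.filter (fun q => q.1 ≠ q.2) with hD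
  set bad : Fin K × Fin K → Finset ℕ := fun q => P'.filter (fun p => (p : ℤ) ∣ c q.1 - c q.2)
    with hbad
  have hbc : ∀ q ∈ D, (bad q).card ≤ m := by
    intro q hq
    have hne : q.1 ≠ q.2 := (Finset.mem_filter.mp hq).2
    refine bad_card m π (τ q.1) (τ q.2) (fun h => hne (hinj h)) (hτ _) (hτ _) (hτp _) (hτp _)
      (bad q) ?_ ?_
    · intro p hp
      exact hP' p (Finset.mem_filter.mp hp).1
    · intro p hp
      have := (Finset.mem_filter.mp hp).2
      rwa [hcc, hcc] at this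
  refine ⟨P' \ D.biUnion bad, Finset.sdiff_subset, ?_, ?_, ?_⟩
  · have h1 : P'.card ≤ (P' \ D.biUnion bad).card + (D.biUnion bad).card := by
      exact Finset.card_le_card_sdiff_add_card (s := P') (t := D.biUnion bad)
    have h2 : (D.biUnion bad).card ≤ D.card * m := Finset.card_biUnion_le_card_mul _ _ _ hbc
    have h3 : D.card ≤ K ^ 2 := by
      calc D.card ≤ (Finset.univ : Finset (Fin K × Fin K)).card := Finset.card_filter_le _ _
        _ = K ^ 2 := by simp [sq]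
    calc P'.card ≤ (P' \ D.biUnion bad).card + (D.biUnion bad).card := h1
      _ ≤ (P' \ D.biUnion bad).card + D.card * m := by omega
      _ ≤ (P' \ D.biUnion bad).card + K ^ 2 * m := by
        have := Nat.mul_le_mul_right m h3
        omega
  · intro p hp i j hij
    by_contra hne
    obtain ⟨hpP, hpn⟩ := Finset.mem_sdiff.mp hp
    apply hpn
    refine Finset.mem_biUnion.mpr ⟨(i, j), ?_, ?_⟩
    · simp [hD, hne]
    · refine Finset.mem_filter.mpr ⟨hpP, ?_⟩
      have h1 : ((c i : ℤ) : ZMod p) = ((c j : ℤ) : ZMod p) := hij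
      have h2 := (ZMod.intCast_eq_intCast_iff_dvd_sub (c j) (c i) p).mp h1.symm
      exact h2
  · intro p hp i h0
    obtain ⟨hpP, -⟩ := Finset.mem_sdiff.mp hp
    obtain ⟨hpp, hpπ⟩ := hP' p hpP
    have h1 : (p : ℤ) ∣ c i := (ZMod.intCast_zmod_eq_zero_iff_dvd (c i) p).mp h0
    rw [hcc] at h1
    have h2 : p ∣ ∏ x ∈ τ i, x := Int.natCast_dvd_natCast.mp h1
    obtain ⟨x, hx, hpx⟩ := (Prime.dvd_finsetProd_iff hpp.prime _).mp h2
    have h3 := (hτp i x hx).2
    have h4 := Nat.le_of_dvd (hτp i x hx).1.pos hpx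
    omega

end Pool.Agent.Helper80.DR
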