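import Pool.Agent.Helper80.DC.Defs

set_option autoImplicit false

/-!
# Project DR (MP_120218): definitions

Paper proof: `/team-store/helper80_DR.md`.
-/

namespace Pool.Agent.Helper80.DR

open Finset Pool.Agent.Helper80.DC

/-- The node lemma with a dominating function `r` which does not depend on the multipliers `l`. -/
def NodeProp2 (η : ℝ) (K : ℕ) : Prop :=
  ∀ (p : ℕ) [Fact p.Prime] (f g : ZMod p → ℝ),
    (∀ a, 0 ≤ f a) → (∀ a, 0 ≤ g a) → ∑ a, f a = 1 → ∑ a, g a = 1 →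
    ∃ r : ZMod p → ZMod p → ℝ, (∀ a b, 0 ≤ r a b) ∧
      ∑ a, ∑ b, f a * g b * r a b ≤ K * (η * (ent f + ent g + ent f * ent g)) ∧
      ∀ l : Fin K → ZMod p, Function.Injective l → (∀ i, l i ≠ 0) →
      ∃ c : Fin K → ZMod p → ZMod p → ℝ,
        (∀ i a b, 0 ≤ c i a b) ∧
        (∀ i z, ∑ a, ∑ b,
          (if l i * a + b = z ∧ 0 < f a ∧ 0 < g b then Real.exp (-(c i a b)) else 0) ≤ 1) ∧
        ∀ a b, ∑ i, c i a b ≤ r a b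

/-- `r` dominates the total cost over the `K` multipliers, for every tuple of multipliers in `V` -/
def Dom (K : ℕ) (X Y : Finset ℤ) (m m' : ℕ) (V : Set (Fin K → ℤ)) (r : ℤ → ℤ → ℝ) : Prop :=
  ∀ v ∈ V, ∃ c : Fin K → ℤ → ℤ → ℝ, (∀ i x y, 0 ≤ c i x y) ∧
    (∀ i, Adm X Y m m' (v i) (c i)) ∧ ∀ x ∈ X, ∀ y ∈ Y, ∑ i, c i x y ≤ r x y

/-- the structure which is found in sets with few quotients by popular primes -/
def Struct (A : Finset ℤ) (K : ℕ) (ε δ : ℝ) : Prop :=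
  ∃ (q : Fin K → ℤ) (Y : Finset ℤ) (S E : Finset ℕ) (e : Finset ℕ → ℤ → ℕ),
    Y.Nonempty ∧ (A.card : ℝ) ^ (1 - ε) ≤ (Y.card : ℝ) ∧ Y.card ≤ A.card ∧
    (E.card : ℝ) ≤ (A.card : ℝ) ^ ε ∧ (∀ p ∈ S, p.Prime) ∧
    δ * Real.log (A.card : ℝ) ≤ (S.card : ℝ) ∧
    (∀ p ∈ S, Function.Injective (fun i => (q i : ZMod p))) ∧
    (∀ p ∈ S, ∀ i, (q i : ZMod p) ≠ 0) ∧
    (∀ H ⊆ S, ∀ y ∈ Y, e H y ∈ E) ∧ (∀ d ∈ E, ∀ p ∈ S, ¬ p ∣ d) ∧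
    (∀ i, ∀ H ⊆ S, ∀ y ∈ Y, q i * (∏ p ∈ H, (p : ℤ)) * (e H y : ℤ) * y ∈ A)

/-- `p` is a top prime of `a` (with respect to `σ`): `p ∣ a` and `v_p(a) + σ p` is odd -/
def Top (σ : ℕ → ℕ) (p : ℕ) (a : ℤ) : Prop := (p : ℤ) ∣ a ∧ (padicValInt p a + σ p) % 2 = 1

open Classical in
/-- the top primes of `a` in `P` -/
noncomputable def tops (σ : ℕ → ℕ) (P : Finset ℕ) (a : ℤ) : Finset ℕ :=
  P.filter (fun p => Top σ p a)

/-- `a` divided by all its top primes in `P` -/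
noncomputable def low (σ : ℕ → ℕ) (P : Finset ℕ) (a : ℤ) : ℤ := a / ∏ p ∈ tops σ P a, (p : ℤ)

end Pool.Agent.Helper80.DR
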