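import Pool.Agent.Helper80.DR.Sums
import Pool.Agent.Helper80.DC.Popular
import Pool.Agent.Helper80.DC.PrimesCase

set_option autoImplicit false

namespace Pool.Agent.Helper80.DR.FQ

open Finset Pool.Agent.Helper80

/-- **The Erdős–Szemerédi inequality, for all `k` and with the full exponent, for all sets which
have few quotients by squarefree products of popular primes.**

For all `k ≥ 1` and `ε, δ > 0` there is `c > 0` such that: let `B ⊆ A` be finite sets of integers,
`A` non-empty, `0 ∉ B`, `|B| ≥ |A|^(1-c)`, let `E` be a set of at most `c log |A|` numbers, and let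
`Q` contain `b / d` for every `b ∈ B` and every squarefree divisor `d` of `b` which has at most
`δ log |A|` prime factors `p`, none of them in `E`, each of them popular (no value is taken by
`v_p` on all but at most `c |B|` elements of `B`). If `|Q| ≤ |A|^(1+c)` then
`max (|kA|, |A^k|) ≥ c |A|^(k - ε)`. -/
theorem few_quotients : ∀ k : ℕ, 1 ≤ k → ∀ ε δ : ℝ, 0 < ε → 0 < δ → ∃ c : ℝ, 0 < c ∧
    ∀ A B Q : Finset ℤ, A.Nonempty → B ⊆ A → (0 : ℤ) ∉ B →
      (A.card : ℝ) ^ (1 - c) ≤ (B.card : ℝ) →
      ∀ E : Finset ℕ, (E.card : ℝ) ≤ c * Real.log (A.card : ℝ) →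
      (∀ b ∈ B, ∀ d : ℕ, Squarefree d → (d : ℤ) ∣ b →
        (∀ p ∈ d.primeFactors, p ∉ E ∧ ∀ z : ℕ,
          c * (B.card : ℝ) < ((B.filter (fun b => padicValInt p b ≠ z)).card : ℝ)) →
        (d.primeFactors.card : ℝ) ≤ δ * Real.log (A.card : ℝ) → b / (d : ℤ) ∈ Q) →
      (Q.card : ℝ) ≤ (A.card : ℝ) ^ (1 + c) →
      c * (A.card : ℝ) ^ ((k : ℝ) - ε) ≤
        max
          (((Fintype.piFinset (fun _ : Fin k => A)).image
              (fun f : Fin k → ℤ => ∑ i, f i)).card : ℝ)
          (((Fintype.piFinset (fun _ : Fin k => A)).image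
              (fun f : Fin k → ℤ => ∏ i, f i)).card : ℝ) := by
  classical
  intro k hk ε δ hε hδ
  have hk0 : (0 : ℝ) < k := by exact_mod_cast hk
  -- the sumset is non-empty
  have hone : ∀ A : Finset ℤ, A.Nonempty → (1 : ℝ) ≤
      max
          (((Fintype.piFinset (fun _ : Fin k => A)).image
              (fun f : Fin k → ℤ => ∑ i, f i)).card : ℝ)
          (((Fintype.piFinset (fun _ : Fin k => A)).image
              (fun f : Fin k → ℤ => ∏ i, f i)).card : ℝ) := by
    intro A hA
    apply le_max_of_le_left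
    have : ((Fintype.piFinset (fun _ : Fin k => A)).image
              (fun f : Fin k → ℤ => ∑ i, f i)).Nonempty := by
      rw [Finset.image_nonempty, Fintype.piFinset_nonempty]
      exact fun _ => hA
    exact_mod_cast card_pos.mpr this
  by_cases hεk : (k : ℝ) ≤ ε
  · refine ⟨1, one_pos, ?_⟩
    intro A B Q hA _ _ _ E _ _ _
    refine le_trans ?_ (hone A hA)
    have hA1 : (1 : ℝ) ≤ A.card := by exact_mod_cast card_pos.mpr hA
    rw [one_mul]
    exact Real.rpow_le_one_of_one_le_of_nonpos hA1 (by linarith)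
  push Not at hεk
  obtain ⟨c1, hc1, hprimes⟩ := DC.PC.primes_case k hk ε hε
  -- the constant of `sums`
  set δ1 := min (δ / 2) (min (c1 / 4) 1) with hδ1def
  have hδ1 : 0 < δ1 := by rw [hδ1def]; positivity
  have hδ1a : δ1 ≤ δ / 2 := min_le_left _ _
  have hδ1b : δ1 ≤ c1 / 4 := (min_le_right _ _).trans (min_le_left _ _)
  clear_value δ1
  obtain ⟨c2, hc2, hsums⟩ := DR.sums k (ε / 2) δ1 (by positivity) hδ1
  -- `log |A| ≥ N1` ensures that `⌈δ1 log |A|⌉ ≤ 2 δ1 log |A|`
  set N1 := 1 / δ1 with hN1def
  refine ⟨min (min (c1 / 2) (min (c2 / 4) c2)) (min (min (1 / 2) (ε / (2 * k)))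
    (Real.exp (-(k * N1)))), by positivity, ?_⟩
  set c := min (min (c1 / 2) (min (c2 / 4) c2)) (min (min (1 / 2) (ε / (2 * k)))
    (Real.exp (-(k * N1)))) with hcdef
  have hcpos : 0 < c := by rw [hcdef]; positivity
  have hca : c ≤ c1 / 2 := (min_le_left _ _).trans (min_le_left _ _)
  have hcb : c ≤ c2 / 4 := (min_le_left _ _).trans ((min_le_right _ _).trans (min_le_left _ _))
  have hcb' : c ≤ c2 := (min_le_left _ _).trans ((min_le_right _ _).trans (min_le_right _ _))
  have hcd : c ≤ 1 / 2 := (min_le_right _ _).trans ((min_le_left _ _).trans (min_le_left _ _))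
  have hce : c ≤ ε / (2 * k) :=
    (min_le_right _ _).trans ((min_le_left _ _).trans (min_le_right _ _))
  have hcc : c ≤ Real.exp (-(k * N1)) := (min_le_right _ _).trans (min_le_right _ _)
  clear_value c
  intro A B Q hA hBA hB0 hcard E hE hdiv hQ
  have hA1 : (1 : ℝ) ≤ A.card := by exact_mod_cast card_pos.mpr hA
  have hA0 : (0 : ℝ) < A.card := by linarith
  have hL0 : 0 ≤ Real.log (A.card : ℝ) := Real.log_nonneg hA1
  have hBpos : (0 : ℝ) < B.card := lt_of_lt_of_le (by positivity) hcard
  have hBne : B.Nonempty := by rw [← card_pos]; exact_mod_cast hBpos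
  have hB1 : (1 : ℝ) ≤ B.card := by exact_mod_cast card_pos.mpr hBne
  have hBAc : (B.card : ℝ) ≤ A.card := by exact_mod_cast card_le_card hBA
  have hLB : Real.log (B.card : ℝ) ≤ Real.log (A.card : ℝ) := Real.log_le_log hBpos hBAc
  have hLB2 : (1 - c) * Real.log (A.card : ℝ) ≤ Real.log (B.card : ℝ) := by
    rw [← Real.log_rpow hA0]
    exact Real.log_le_log (by positivity) hcard
  -- popular primes
  set T := ((∏ b ∈ B, b.natAbs).primeFactors.filter
    (fun p => p ∉ E ∧ ∀ z : ℕ,
      c1 * (B.card : ℝ) < ((B.filter (fun b => padicValInt p b ≠ z)).card : ℝ))) with hT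
  have hpd : ∀ p : ℕ, ((B.filter (fun b => padicValInt p b ≠ 0)).card : ℝ) ≤
          ((B.filter (fun b => (p : ℤ) ∣ b)).card : ℝ) := by
    intro p
    have hsub : (B.filter (fun b => padicValInt p b ≠ 0)) ⊆ B.filter (fun b => (p : ℤ) ∣ b) := by
      intro b hb
      rw [mem_filter] at hb ⊢
      refine ⟨hb.1, ?_⟩
      by_contra hnd
      exact hb.2 (padicValInt.eq_zero_of_not_dvd hnd)
    exact Nat.cast_le.2 (card_le_card hsub)
  have hprod0 : (∏ b ∈ B, b.natAbs) ≠ 0 := by
    rw [Finset.prod_ne_zero_iff]
    intro b hb h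
    rw [Int.natAbs_eq_zero] at h
    exact hB0 (h ▸ hb)
  by_cases hcase : ((T ∪ E).card : ℝ) ≤ c1 * Real.log (A.card : ℝ)
  · have hmain := hprimes A B hA hBA hB0 ?_ (T ∪ E) hcase ?_
    · refine le_trans ?_ hmain
      apply mul_le_mul_of_nonneg_right (by linarith) (by positivity)
    · refine le_trans ?_ hcard
      apply Real.rpow_le_rpow_of_exponent_le hA1
      linarith
    · intro p hp hpTE
      have hpT : p ∉ T := fun h => hpTE (mem_union_left _ h)
      have hpE : p ∉ E := fun h => hpTE (mem_union_right _ h)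
      by_contra hall
      push Not at hall
      apply hpT
      rw [hT, mem_filter]
      refine ⟨?_, hpE, hall⟩
      rw [Nat.mem_primeFactors]
      refine ⟨hp, ?_, hprod0⟩
      have hpos : 0 < (B.filter (fun b => (p : ℤ) ∣ b)).card := by
        have : (0 : ℝ) < ((B.filter (fun b => (p : ℤ) ∣ b)).card : ℝ) :=
          lt_of_le_of_lt (by positivity) ((hall 0).trans_le (hpd p))
        exact_mod_cast this
      obtain ⟨b, hb⟩ := card_pos.1 hpos
      rw [mem_filter] at hb
      exact (Int.natCast_dvd.1 hb.2).trans (Finset.dvd_prod_of_mem _ hb.1)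
  · push Not at hcase
    by_cases hN : N1 ≤ Real.log (A.card : ℝ)
    · -- many popular primes
      set L := Real.log (A.card : ℝ) with hLdef
      have hδ1L : 1 ≤ δ1 * L := by
        have h1 := mul_le_mul_of_nonneg_left hN hδ1.le
        have h2 : δ1 * N1 = 1 := by rw [hN1def]; field_simp
        linarith
      have hTc : c1 / 2 * L ≤ T.card := by
        have h1 : ((T ∪ E).card : ℝ) ≤ T.card + E.card := by
          exact_mod_cast card_union_le T E
        have h2 : c * L ≤ c1 / 2 * L := mul_le_mul_of_nonneg_right hca hL0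
        linarith
      have htT : ⌈δ1 * L⌉₊ ≤ T.card := by
        rw [Nat.ceil_le]
        refine le_trans ?_ hTc
        exact mul_le_mul_of_nonneg_right (by linarith) hL0
      obtain ⟨T', hT'T, hT'card⟩ := Finset.exists_subset_card_eq htT
      have ht1 : δ1 * L ≤ (T'.card : ℝ) := by rw [hT'card]; exact Nat.le_ceil _
      have ht2 : (T'.card : ℝ) ≤ δ * L := by
        rw [hT'card]
        have := (Nat.ceil_lt_add_one (by positivity : (0 : ℝ) ≤ δ1 * L)).le
        have h3 : δ1 * L ≤ δ / 2 * L := mul_le_mul_of_nonneg_right hδ1a hL0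
        linarith
      have hT'p : ∀ p ∈ T', p.Prime := fun p hp =>
        Nat.prime_of_mem_primeFactors (mem_filter.1 (hT'T hp)).1
      have hkey := hsums B Q T' hBne hB0 hT'p
        ((mul_le_mul_of_nonneg_left hLB hδ1.le).trans ht1) ?_ ?_ ?_
      · -- from `B` to `A`
        have hsub : ((Fintype.piFinset (fun _ : Fin k => B)).image
              (fun f : Fin k → ℤ => ∑ i, f i)) ⊆
            ((Fintype.piFinset (fun _ : Fin k => A)).image
              (fun f : Fin k → ℤ => ∑ i, f i)) := by
          apply image_subset_image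
          intro f hf
          rw [Fintype.mem_piFinset] at hf ⊢
          exact fun i => hBA (hf i)
        refine le_trans ?_ (le_max_left _ _)
        refine le_trans ?_ ((hkey).trans (by exact_mod_cast card_le_card hsub))
        have h1 : (A.card : ℝ) ^ ((k : ℝ) - ε) ≤ (B.card : ℝ) ^ ((k : ℝ) - ε / 2) := by
          have h2 : ((A.card : ℝ) ^ (1 - c)) ^ ((k : ℝ) - ε / 2) ≤
              (B.card : ℝ) ^ ((k : ℝ) - ε / 2) :=
            Real.rpow_le_rpow (by positivity) hcard (by linarith)
          refine le_trans ?_ h2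
          rw [← Real.rpow_mul hA0.le]
          apply Real.rpow_le_rpow_of_exponent_le hA1
          have h3 : c * k ≤ ε / 2 := by
            have := mul_le_mul_of_nonneg_right hce hk0.le
            have h4 : ε / (2 * k) * k = ε / 2 := by field_simp
            linarith
          have h5 : c * (ε / 2) ≥ 0 := by positivity
          nlinarith
        exact mul_le_mul hcb' h1 (by positivity) hc2.le
      · intro p hp
        have h1 := ((mem_filter.1 (hT'T hp)).2.2 0).le.trans (hpd p)
        refine le_trans ?_ h1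
        exact mul_le_mul_of_nonneg_right (by linarith) hBpos.le
      · intro a ha D hD hDa
        have hDp : ∀ p ∈ D, p.Prime := fun p hp => hT'p p (hD hp)
        have hdf : (∏ p ∈ D, p).primeFactors = D := Nat.primeFactors_prod hDp
        have h1 := hdiv a ha (∏ p ∈ D, p) (DC.squarefree_prod hDp)
          (DC.prod_dvd_of_primes hDp hDa) ?_ ?_
        · have h2 : ((∏ p ∈ D, p : ℕ) : ℤ) = ∏ p ∈ D, (p : ℤ) := by push_cast; rfl
          rw [h2] at h1
          exact h1
        · intro p hp
          rw [hdf] at hp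
          obtain ⟨-, h2, h3⟩ := mem_filter.1 (hT'T (hD hp))
          refine ⟨h2, fun z => lt_of_le_of_lt ?_ (h3 z)⟩
          exact mul_le_mul_of_nonneg_right (by linarith) hBpos.le
        · rw [hdf]
          refine le_trans ?_ ht2
          exact_mod_cast card_le_card hD
      · refine hQ.trans ?_
        have h1 : (A.card : ℝ) ^ (1 + c) ≤ ((A.card : ℝ) ^ (1 - c)) ^ (1 + c2) := by
          rw [← Real.rpow_mul hA0.le]
          apply Real.rpow_le_rpow_of_exponent_le hA1
          nlinarith
        refine h1.trans ?_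
        exact Real.rpow_le_rpow (by positivity) hcard (by linarith)
    · push Not at hN
      refine le_trans ?_ (hone A hA)
      calc c * (A.card : ℝ) ^ ((k : ℝ) - ε)
          ≤ Real.exp (-(k * N1)) * Real.exp (k * N1) := by
            apply mul_le_mul hcc _ (by positivity) (Real.exp_pos _).le
            rw [Real.rpow_def_of_pos hA0]
            apply Real.exp_le_exp.2
            have h1 : Real.log (A.card : ℝ) * ((k : ℝ) - ε) ≤ Real.log (A.card : ℝ) * k := by
              apply mul_le_mul_of_nonneg_left _ hL0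
              linarith
            refine h1.trans ?_
            rw [mul_comm]
            exact mul_le_mul_of_nonneg_left hN.le hk0.le
        _ = 1 := by rw [← Real.exp_add, neg_add_cancel, Real.exp_zero]

end Pool.Agent.Helper80.DR.FQ
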