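import Pool.Agent.Helper80.DR.NodeSum2
import Pool.Agent.Helper80.DC.Digit
import Pool.Agent.Helper80.DC.PhiFacts

set_option autoImplicit false

/-!
# DR-3 NodeStep2: one digit of `x` and one digit of `y`, with a dominating function

Same proof as `Helper80/DC/NodeStep.lean` (finished): `nodeSum2` gives `r0`, independent of the
multipliers; `r' = r + r0` (made `0`/anything outside `X × Y`); for `v ∈ V` use the costs
`c' i x y = c i x y + cn i (α x) (β y) (δ' y) (δ x)` of that proof.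
-/

namespace Pool.Agent.Helper80.DR

open Finset Pool.Agent.Helper80.DC

private theorem adm_step {p : ℕ} [Fact p.Prime] (X Y : Finset ℤ) (m m' : ℕ) (hm : 0 < m)
    (hm' : 0 < m') (hpm : ¬ p ∣ m) (hpm' : ¬ p ∣ m') (s D : ℕ) (v : ℤ) (c : ℤ → ℤ → ℝ)
    (hadm : Adm X Y (m * p ^ (s + D + 1)) (m' * p ^ (s + 1)) ((p : ℤ) ^ D * v) c)
    (cn : ℤ → ℤ → ZMod p → ZMod p → ℝ)
    (cnK : ∀ a b z, ∑ u, ∑ t,
      (if (v : ZMod p) * u + t = z ∧ (∃ y ∈ Y, y % ((m' * p ^ s : ℕ) : ℤ) = b ∧ dig p s y = u) ∧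
        (∃ x ∈ X, x % ((m * p ^ (s + D) : ℕ) : ℤ) = a ∧ dig p (s + D) x = t) then
        Real.exp (-(cn a b u t)) else 0) ≤ 1) :
    Adm X Y (m * p ^ (s + D)) (m' * p ^ s) ((p : ℤ) ^ D * v)
      (fun x y => c x y + cn (x % ((m * p ^ (s + D) : ℕ) : ℤ))
        (y % ((m' * p ^ s : ℕ) : ℤ)) (dig p s y) (dig p (s + D) x)) := by
  classical
  have hp : p.Prime := Fact.out
  intro a b w
  by_cases hex : ∃ x1 y1 : ℤ, x1 ∈ X ∧ y1 ∈ Y ∧ x1 % ((m * p ^ (s + D) : ℕ) : ℤ) = a ∧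
      y1 % ((m' * p ^ s : ℕ) : ℤ) = b ∧ x1 + (p : ℤ) ^ D * v * y1 = w
  swap
  · refine le_trans (le_of_eq ?_) zero_le_one
    refine Finset.sum_eq_zero fun x hx => Finset.sum_eq_zero fun y hy => ?_
    rw [if_neg]
    rintro ⟨h1, h2, h3⟩
    exact hex ⟨x, y, hx, hy, h1, h2, h3⟩
  obtain ⟨x1, y1, hx1, hy1, ha1, hb1, hw1⟩ := hex
  set z : ZMod p := (v : ZMod p) * dig p s y1 + dig p (s + D) x1 with hz
  -- the sums over the sub-classes
  have hS : ∀ u t : ZMod p, ∑ x ∈ X, ∑ y ∈ Y,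
      (if (x % ((m * p ^ (s + D) : ℕ) : ℤ) = a ∧ y % ((m' * p ^ s : ℕ) : ℤ) = b ∧
        x + (p : ℤ) ^ D * v * y = w) ∧ dig p s y = u ∧ dig p (s + D) x = t
        then Real.exp (-(c x y)) else 0) ≤
      (if (v : ZMod p) * u + t = z ∧
          (∃ y ∈ Y, y % ((m' * p ^ s : ℕ) : ℤ) = b ∧ dig p s y = u) ∧
          (∃ x ∈ X, x % ((m * p ^ (s + D) : ℕ) : ℤ) = a ∧ dig p (s + D) x = t) then 1 else 0) := by
    intro u t
    by_cases hex2 : ∃ x0 y0 : ℤ, x0 ∈ X ∧ y0 ∈ Y ∧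
        (x0 % ((m * p ^ (s + D) : ℕ) : ℤ) = a ∧ y0 % ((m' * p ^ s : ℕ) : ℤ) = b ∧
        x0 + (p : ℤ) ^ D * v * y0 = w) ∧ dig p s y0 = u ∧ dig p (s + D) x0 = t
    swap
    · have hzero : ∑ x ∈ X, ∑ y ∈ Y,
        (if (x % ((m * p ^ (s + D) : ℕ) : ℤ) = a ∧ y % ((m' * p ^ s : ℕ) : ℤ) = b ∧
          x + (p : ℤ) ^ D * v * y = w) ∧ dig p s y = u ∧ dig p (s + D) x = t
          then Real.exp (-(c x y)) else 0) = 0 := by
        refine Finset.sum_eq_zero fun x hx => Finset.sum_eq_zero fun y hy => ?_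
        rw [if_neg]
        rintro ⟨h1, h2, h3⟩
        exact hex2 ⟨x, y, hx, hy, h1, h2, h3⟩
      rw [hzero]
      split_ifs
      · exact zero_le_one
      · exact le_rfl
    obtain ⟨x0, y0, hx0, hy0, ⟨ha0, hb0, hw0⟩, hu0, ht0⟩ := hex2
    have hcond : (v : ZMod p) * u + t = z ∧
          (∃ y ∈ Y, y % ((m' * p ^ s : ℕ) : ℤ) = b ∧ dig p s y = u) ∧
          (∃ x ∈ X, x % ((m * p ^ (s + D) : ℕ) : ℤ) = a ∧ dig p (s + D) x = t) := by
      refine ⟨?_, ⟨y0, hy0, hb0, hu0⟩, ⟨x0, hx0, ha0, ht0⟩⟩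
      rw [← hu0, ← ht0, hz]
      exact dig_add p s D m m' hp (v) w x0 y0 x1 y1 (ha0.trans ha1.symm)
        (hb0.trans hb1.symm) hw0 hw1
    rw [if_pos hcond]
    refine le_trans (le_of_eq ?_) (hadm (x0 % ((m * p ^ (s + D + 1) : ℕ) : ℤ))
      (y0 % ((m' * p ^ (s + 1) : ℕ) : ℤ)) w)
    refine Finset.sum_congr rfl fun x _ => Finset.sum_congr rfl fun y _ => ?_
    refine if_congr ?_ rfl rfl
    have e1 := dig_iff p (s + D) m hp hpm hm x x0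
    have e2 := dig_iff p s m' hp hpm' hm' y y0
    rw [ha0, ht0] at e1
    rw [hb0, hu0] at e2
    constructor
    · rintro ⟨⟨h1, h2, h3⟩, h4, h5⟩
      exact ⟨e1.1 ⟨h1, h5⟩, e2.1 ⟨h2, h4⟩, h3⟩
    · rintro ⟨h1, h2, h3⟩
      obtain ⟨h4, h5⟩ := e1.2 h1
      obtain ⟨h6, h7⟩ := e2.2 h2
      exact ⟨⟨h4, h6, h3⟩, h7, h5⟩
  -- grouping
  have hgroup : ∑ x ∈ X, ∑ y ∈ Y,
      (if x % ((m * p ^ (s + D) : ℕ) : ℤ) = a ∧ y % ((m' * p ^ s : ℕ) : ℤ) = b ∧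
        x + (p : ℤ) ^ D * v * y = w then
        Real.exp (-(c x y + cn (x % ((m * p ^ (s + D) : ℕ) : ℤ))
          (y % ((m' * p ^ s : ℕ) : ℤ)) (dig p s y) (dig p (s + D) x))) else 0) =
      ∑ u : ZMod p, ∑ t : ZMod p, Real.exp (-(cn a b u t)) * ∑ x ∈ X, ∑ y ∈ Y,
      (if (x % ((m * p ^ (s + D) : ℕ) : ℤ) = a ∧ y % ((m' * p ^ s : ℕ) : ℤ) = b ∧
        x + (p : ℤ) ^ D * v * y = w) ∧ dig p s y = u ∧ dig p (s + D) x = t
        then Real.exp (-(c x y)) else 0) := by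
    have hpt : ∀ x y : ℤ,
      (if x % ((m * p ^ (s + D) : ℕ) : ℤ) = a ∧ y % ((m' * p ^ s : ℕ) : ℤ) = b ∧
        x + (p : ℤ) ^ D * v * y = w then
        Real.exp (-(c x y + cn (x % ((m * p ^ (s + D) : ℕ) : ℤ))
          (y % ((m' * p ^ s : ℕ) : ℤ)) (dig p s y) (dig p (s + D) x))) else 0) =
      ∑ u : ZMod p, ∑ t : ZMod p, Real.exp (-(cn a b u t)) *
      (if (x % ((m * p ^ (s + D) : ℕ) : ℤ) = a ∧ y % ((m' * p ^ s : ℕ) : ℤ) = b ∧
        x + (p : ℤ) ^ D * v * y = w) ∧ dig p s y = u ∧ dig p (s + D) x = t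
        then Real.exp (-(c x y)) else 0) := by
      intro x y
      rw [Finset.sum_eq_single (dig p s y), Finset.sum_eq_single (dig p (s + D) x)]
      · by_cases hq : x % ((m * p ^ (s + D) : ℕ) : ℤ) = a ∧ y % ((m' * p ^ s : ℕ) : ℤ) = b ∧
          x + (p : ℤ) ^ D * v * y = w
        · rw [if_pos hq, if_pos ⟨hq, rfl, rfl⟩, hq.1, hq.2.1, neg_add, Real.exp_add, mul_comm]
        · rw [if_neg hq, if_neg (fun hh => hq hh.1), mul_zero]
      · intro t _ ht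
        rw [if_neg (fun hh => ht hh.2.2.symm), mul_zero]
      · intro hh
        exact absurd (Finset.mem_univ _) hh
      · intro u _ hu
        refine Finset.sum_eq_zero fun t _ => ?_
        rw [if_neg (fun hh => hu hh.2.1.symm), mul_zero]
      · intro hh
        exact absurd (Finset.mem_univ _) hh
    have step1 : ∀ x y : ℤ, ∑ u : ZMod p, ∑ t : ZMod p, Real.exp (-(cn a b u t)) *
      (if (x % ((m * p ^ (s + D) : ℕ) : ℤ) = a ∧ y % ((m' * p ^ s : ℕ) : ℤ) = b ∧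
        x + (p : ℤ) ^ D * v * y = w) ∧ dig p s y = u ∧ dig p (s + D) x = t
        then Real.exp (-(c x y)) else 0) =
      ∑ q : ZMod p × ZMod p, Real.exp (-(cn a b q.1 q.2)) *
      (if (x % ((m * p ^ (s + D) : ℕ) : ℤ) = a ∧ y % ((m' * p ^ s : ℕ) : ℤ) = b ∧
        x + (p : ℤ) ^ D * v * y = w) ∧ dig p s y = q.1 ∧ dig p (s + D) x = q.2
        then Real.exp (-(c x y)) else 0) := by
      intro x y
      exact (Fintype.sum_prod_type' (fun u t => Real.exp (-(cn a b u t)) *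
      (if (x % ((m * p ^ (s + D) : ℕ) : ℤ) = a ∧ y % ((m' * p ^ s : ℕ) : ℤ) = b ∧
        x + (p : ℤ) ^ D * v * y = w) ∧ dig p s y = u ∧ dig p (s + D) x = t
        then Real.exp (-(c x y)) else 0))).symm
    rw [Finset.sum_congr rfl (fun x _ => Finset.sum_congr rfl (fun y _ =>
      (hpt x y).trans (step1 x y)))]
    rw [← Fintype.sum_prod_type' (fun u t => Real.exp (-(cn a b u t)) * ∑ x ∈ X, ∑ y ∈ Y,
      (if (x % ((m * p ^ (s + D) : ℕ) : ℤ) = a ∧ y % ((m' * p ^ s : ℕ) : ℤ) = b ∧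
        x + (p : ℤ) ^ D * v * y = w) ∧ dig p s y = u ∧ dig p (s + D) x = t
        then Real.exp (-(c x y)) else 0))]
    rw [Finset.sum_congr rfl (fun x _ => Finset.sum_comm)]
    rw [Finset.sum_comm]
    refine Finset.sum_congr rfl fun q _ => ?_
    rw [Finset.mul_sum]
    refine Finset.sum_congr rfl fun x _ => ?_
    rw [Finset.mul_sum]
  rw [hgroup]
  refine le_trans ?_ (cnK a b z)
  refine Finset.sum_le_sum fun u _ => Finset.sum_le_sum fun t _ => ?_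
  refine le_trans (mul_le_mul_of_nonneg_left (hS u t) (Real.exp_pos _).le) ?_
  split_ifs
  · rw [mul_one]
  · rw [mul_zero]

/-- [DR-3] -/
theorem nodeStep2 {η : ℝ} {K : ℕ} (h : NodeProp2 η K) (p : ℕ) [Fact p.Prime] (X Y : Finset ℤ)
    (hX : X.Nonempty) (hY : Y.Nonempty) (m m' : ℕ) (hm : 0 < m) (hm' : 0 < m')
    (hpm : ¬ p ∣ m) (hpm' : ¬ p ∣ m') (s D : ℕ) (V : Set (Fin K → ℤ))
    (hV : ∀ v ∈ V, Function.Injective (fun i => (v i : ZMod p)) ∧ ∀ i, (v i : ZMod p) ≠ 0)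
    (r : ℤ → ℤ → ℝ) (hr : ∀ x y, 0 ≤ r x y)
    (hdom : Dom K X Y (m * p ^ (s + D + 1)) (m' * p ^ (s + 1))
      ((fun (v : Fin K → ℤ) i => (p : ℤ) ^ D * v i) '' V) r) :
    ∃ r' : ℤ → ℤ → ℝ, (∀ x y, 0 ≤ r' x y) ∧
      Dom K X Y (m * p ^ (s + D)) (m' * p ^ s)
        ((fun (v : Fin K → ℤ) i => (p : ℤ) ^ D * v i) '' V) r' ∧
      ∑ x ∈ X, ∑ y ∈ Y, r' x y ≤ ∑ x ∈ X, ∑ y ∈ Y, r x y +
        K * (η * (X.card * Y.card *
          ((Phi X (m * p ^ (s + D)) - Phi X (m * p ^ (s + D + 1))) +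
           (Phi Y (m' * p ^ s) - Phi Y (m' * p ^ (s + 1))) +
           (Phi X (m * p ^ (s + D)) - Phi X (m * p ^ (s + D + 1))) *
           (Phi Y (m' * p ^ s) - Phi Y (m' * p ^ (s + 1)))))) := by
  classical
  have hp : p.Prime := Fact.out
  obtain ⟨r0, hr0, hr0S, hr0c⟩ := nodeSum2 h p X Y hX hY
    (fun x => x % ((m * p ^ (s + D) : ℕ) : ℤ)) (fun y => y % ((m' * p ^ s : ℕ) : ℤ))
    (dig p (s + D)) (dig p s)
  rw [gap_dig p (s + D) m hp hpm hm X, gap_dig p s m' hp hpm' hm' Y] at hr0S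
  refine ⟨fun x y => r x y + r0 x y, fun x y => add_nonneg (hr x y) (hr0 x y), ?_, ?_⟩
  · rintro w ⟨v, hv, rfl⟩
    obtain ⟨hinj, h0⟩ := hV v hv
    obtain ⟨cn, cn0, cnK, cnS⟩ := hr0c (fun i => (v i : ZMod p)) hinj h0
    obtain ⟨c, hc, hadm, hcr⟩ := hdom _ ⟨v, hv, rfl⟩
    refine ⟨fun i x y => c i x y + cn i (x % ((m * p ^ (s + D) : ℕ) : ℤ))
      (y % ((m' * p ^ s : ℕ) : ℤ)) (dig p s y) (dig p (s + D) x), ?_, ?_, ?_⟩
    · intro i x y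
      exact add_nonneg (hc i x y) (cn0 _ _ _ _ _)
    · intro i
      exact adm_step X Y m m' hm hm' hpm hpm' s D (v i) (c i) (hadm i) (cn i) (cnK i)
    · intro x hx y hy
      rw [Finset.sum_add_distrib]
      exact add_le_add (hcr x hx y hy) (cnS x hx y hy)
  · have hsplit : ∑ x ∈ X, ∑ y ∈ Y, (r x y + r0 x y) =
        ∑ x ∈ X, ∑ y ∈ Y, r x y + ∑ x ∈ X, ∑ y ∈ Y, r0 x y := by
      simp only [Finset.sum_add_distrib]
    rw [hsplit]
    exact add_le_add le_rfl hr0S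

end Pool.Agent.Helper80.DR
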