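import Pool.Agent.Helper80.DR.Defs
import Pool.Agent.Helper80.DC.NodeSum

set_option autoImplicit false

/-!
# DR-2 NodeSum2

Same as `Helper80/DC/NodeSum.lean` (finished; copy its private lemmas), with the dominating
function: for classes `a` of `X`, `b` of `Y` let `r_{a,b} u v` be the function of `NodeProp2` for the
laws `f_b` (digits `δ'` in the class `b` of `Y`) and `g_a` (digits `δ` in the class `a` of `X`); put
`r x y = r_{α x, β y} (δ' y) (δ x)` for `x ∈ X`, `y ∈ Y` (and `0` otherwise).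
-/

namespace Pool.Agent.Helper80.DR

open Finset Pool.Agent.Helper80.DC

private theorem ns_card_pos {X : Finset ℤ} {α : ℤ → ℤ} {a : ℤ} (ha : a ∈ X.image α) :
    (0 : ℝ) < ((X.filter (fun x => α x = a)).card : ℝ) := by
  obtain ⟨x, hx, hxa⟩ := Finset.mem_image.mp ha
  exact_mod_cast Finset.card_pos.mpr ⟨x, Finset.mem_filter.mpr ⟨hx, hxa⟩⟩

private theorem ns_avg {p : ℕ} [Fact p.Prime] (X : Finset ℤ) (α : ℤ → ℤ) (δ : ℤ → ZMod p)
    (F : ℤ → ZMod p → ℝ) :
    ∑ x ∈ X, F (α x) (δ x) = ∑ a ∈ X.image α, ((X.filter (fun x => α x = a)).card : ℝ) *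
      ∑ v, nsw X α δ a v * F a v := by
  have hmaps : (X : Set ℤ).MapsTo α (X.image α) := by
    intro x hx
    exact Finset.mem_coe.mpr (Finset.mem_image_of_mem α (Finset.mem_coe.mp hx))
  rw [← Finset.sum_fiberwise_of_maps_to hmaps]
  refine Finset.sum_congr rfl fun a ha => ?_
  have hm := ns_card_pos ha
  have h1 : ∑ x ∈ X.filter (fun x => α x = a), F (α x) (δ x) =
      ∑ x ∈ X.filter (fun x => α x = a), F a (δ x) := by
    refine Finset.sum_congr rfl fun x hx => ?_
    rw [(Finset.mem_filter.mp hx).2]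
  have h2 : ∑ x ∈ X.filter (fun x => α x = a), F a (δ x) =
      ∑ v, ∑ x ∈ (X.filter (fun x => α x = a)).filter (fun x => δ x = v), F a (δ x) :=
    (Finset.sum_fiberwise _ _ _).symm
  rw [h1, h2, Finset.mul_sum]
  refine Finset.sum_congr rfl fun v _ => ?_
  have h3 : ∑ x ∈ (X.filter (fun x => α x = a)).filter (fun x => δ x = v), F a (δ x) =
      ∑ x ∈ X.filter (fun x => α x = a ∧ δ x = v), F a v := by
    rw [Finset.filter_filter]
    refine Finset.sum_congr rfl fun x hx => ?_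
    rw [(Finset.mem_filter.mp hx).2.2]
  rw [h3, Finset.sum_const, nsmul_eq_mul, nsw]
  field_simp

private theorem ns_nonneg {p : ℕ} (X : Finset ℤ) (α : ℤ → ℤ) (δ : ℤ → ZMod p) (a : ℤ)
    (v : ZMod p) : 0 ≤ nsw X α δ a v := by
  unfold nsw
  positivity

private theorem ns_pos_iff {p : ℕ} (X : Finset ℤ) (α : ℤ → ℤ) (δ : ℤ → ZMod p) (a : ℤ)
    (v : ZMod p) : 0 < nsw X α δ a v ↔ ∃ x ∈ X, α x = a ∧ δ x = v := by
  constructor
  · intro h
    have h1 : (X.filter (fun x => α x = a ∧ δ x = v)).card ≠ 0 := by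
      intro h0
      rw [nsw, h0, Nat.cast_zero, zero_div] at h
      exact lt_irrefl _ h
    obtain ⟨x, hx⟩ := Finset.card_pos.mp (Nat.pos_of_ne_zero h1)
    rw [Finset.mem_filter] at hx
    exact ⟨x, hx.1, hx.2⟩
  · rintro ⟨x, hx, hxa, hxv⟩
    have h0 : x ∈ X.filter (fun x => α x = a ∧ δ x = v) := Finset.mem_filter.mpr ⟨hx, hxa, hxv⟩
    have h1 : (0 : ℝ) < ((X.filter (fun x => α x = a ∧ δ x = v)).card : ℝ) := by
      exact_mod_cast Finset.card_pos.mpr ⟨x, h0⟩
    have h2 : a ∈ X.image α := Finset.mem_image.mpr ⟨x, hx, hxa⟩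
    exact div_pos h1 (ns_card_pos h2)

private theorem ns_sum {p : ℕ} [Fact p.Prime] (X : Finset ℤ) (α : ℤ → ℤ) (δ : ℤ → ZMod p) {a : ℤ}
    (ha : a ∈ X.image α) : ∑ v, nsw X α δ a v = 1 := by
  have hm := ns_card_pos ha
  have h1 : ∑ v, (((X.filter (fun x => α x = a ∧ δ x = v)).card : ℕ) : ℝ) =
      ((X.filter (fun x => α x = a)).card : ℝ) := by
    rw [← Nat.cast_sum]
    congr 1
    have h2 := Finset.card_eq_sum_card_fiberwise
      (f := δ) (s := X.filter (fun x => α x = a)) (t := Finset.univ)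
      (fun x _ => Finset.mem_coe.mpr (Finset.mem_univ _))
    rw [h2]
    refine Finset.sum_congr rfl fun v _ => ?_
    rw [Finset.filter_filter]
  unfold nsw
  rw [← Finset.sum_div, h1, div_self hm.ne']

private theorem ns_ent {p : ℕ} [Fact p.Prime] (X : Finset ℤ) (hX : X.Nonempty) (α : ℤ → ℤ)
    (δ : ℤ → ZMod p) :
    ∑ a ∈ X.image α, ((X.filter (fun x => α x = a)).card : ℝ) * ent (nsw X α δ a) =
      X.card * gap X α δ := by
  have hc : (X.card : ℝ) ≠ 0 := by
    exact_mod_cast (Finset.card_pos.mpr hX).ne'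
  have h0 : X.card * gap X α δ = ∑ x ∈ X, (fun (a : ℤ) (v : ZMod p) =>
      Real.log ((X.filter (fun x => α x = a)).card : ℝ) -
      Real.log ((X.filter (fun x => α x = a ∧ δ x = v)).card : ℝ)) (α x) (δ x) := by
    rw [gap, mul_div_cancel₀ _ hc]
    refine Finset.sum_congr rfl fun x _ => ?_
    have h1 : cnt X α x = (X.filter (fun y => α y = α x)).card := rfl
    have h2 : cnt X (fun y => (α y, δ y)) x =
        (X.filter (fun y => α y = α x ∧ δ y = δ x)).card := by
      unfold cnt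
      simp only [Prod.mk.injEq]
    rw [h1, h2]
  rw [h0, ns_avg X α δ (fun (a : ℤ) (v : ZMod p) =>
      Real.log ((X.filter (fun x => α x = a)).card : ℝ) -
      Real.log ((X.filter (fun x => α x = a ∧ δ x = v)).card : ℝ))]
  refine Finset.sum_congr rfl fun a ha => ?_
  congr 1
  unfold ent
  refine Finset.sum_congr rfl fun v _ => ?_
  have hm := ns_card_pos ha
  rcases eq_or_ne ((X.filter (fun x => α x = a ∧ δ x = v)).card) 0 with h | h
  · have h1 : nsw X α δ a v = 0 := by rw [nsw, h, Nat.cast_zero, zero_div]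
    rw [h1, Real.negMulLog_zero, zero_mul]
  · have h1 : (((X.filter (fun x => α x = a ∧ δ x = v)).card : ℕ) : ℝ) ≠ 0 := by
      exact_mod_cast h
    rw [Real.negMulLog, nsw, Real.log_div h1 hm.ne']
    ring

/-- [DR-2] -/
theorem nodeSum2 {η : ℝ} {K : ℕ} (h : NodeProp2 η K) (p : ℕ) [Fact p.Prime] (X Y : Finset ℤ)
    (hX : X.Nonempty) (hY : Y.Nonempty) (α β : ℤ → ℤ) (δ δ' : ℤ → ZMod p) :
    ∃ r : ℤ → ℤ → ℝ, (∀ x y, 0 ≤ r x y) ∧
      ∑ x ∈ X, ∑ y ∈ Y, r x y ≤
        K * (η * (X.card * Y.card * (gap X α δ + gap Y β δ' + gap X α δ * gap Y β δ'))) ∧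
      ∀ l : Fin K → ZMod p, Function.Injective l → (∀ i, l i ≠ 0) →
      ∃ c : Fin K → ℤ → ℤ → ZMod p → ZMod p → ℝ,
        (∀ i a b u v, 0 ≤ c i a b u v) ∧
        (∀ i a b z, ∑ u, ∑ v,
          (if l i * u + v = z ∧ (∃ y ∈ Y, β y = b ∧ δ' y = u) ∧
              (∃ x ∈ X, α x = a ∧ δ x = v) then
            Real.exp (-(c i a b u v)) else 0) ≤ 1) ∧
        ∀ x ∈ X, ∀ y ∈ Y, ∑ i, c i (α x) (β y) (δ' y) (δ x) ≤ r x y := by
  classical
  have key : ∀ a b : ℤ, ∃ r : ZMod p → ZMod p → ℝ, (∀ u v, 0 ≤ r u v) ∧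
      (a ∈ X.image α → b ∈ Y.image β → ∑ u, ∑ v, nsw Y β δ' b u * nsw X α δ a v * r u v ≤
        K * (η * (ent (nsw Y β δ' b) + ent (nsw X α δ a) +
          ent (nsw Y β δ' b) * ent (nsw X α δ a)))) ∧
      ∀ l : Fin K → ZMod p, Function.Injective l → (∀ i, l i ≠ 0) →
      ∃ c : Fin K → ZMod p → ZMod p → ℝ,
      (∀ i u v, 0 ≤ c i u v) ∧
      (∀ i z, ∑ u, ∑ v,
        (if l i * u + v = z ∧ (∃ y ∈ Y, β y = b ∧ δ' y = u) ∧ (∃ x ∈ X, α x = a ∧ δ x = v) then
          Real.exp (-(c i u v)) else 0) ≤ 1) ∧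
      ∀ u v, ∑ i, c i u v ≤ r u v := by
    intro a b
    by_cases hab : a ∈ X.image α ∧ b ∈ Y.image β
    · obtain ⟨ha, hb⟩ := hab
      obtain ⟨r, hr0, hr1, hr2⟩ := h p (nsw Y β δ' b) (nsw X α δ a)
        (ns_nonneg Y β δ' b) (ns_nonneg X α δ a) (ns_sum Y β δ' hb) (ns_sum X α δ ha)
      refine ⟨r, hr0, fun _ _ => hr1, fun l hl hl0 => ?_⟩
      obtain ⟨c, hc0, hc1, hc2⟩ := hr2 l hl hl0
      refine ⟨c, hc0, fun i z => ?_, hc2⟩
      refine le_trans (le_of_eq ?_) (hc1 i z)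
      refine Finset.sum_congr rfl fun u _ => Finset.sum_congr rfl fun v _ => ?_
      simp only [ns_pos_iff]
    · refine ⟨fun _ _ => 0, fun _ _ => le_refl _, fun ha hb => absurd ⟨ha, hb⟩ hab,
        fun l _ _ => ⟨fun _ _ _ => 0, fun _ _ _ => le_refl _, fun i z => ?_, fun u v => by simp⟩⟩
      refine le_trans (le_of_eq ?_) zero_le_one
      refine Finset.sum_eq_zero fun u _ => Finset.sum_eq_zero fun v _ => ?_
      rw [if_neg]
      rintro ⟨-, ⟨y, hy, hyb, -⟩, ⟨x, hx, hxa, -⟩⟩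
      exact hab ⟨Finset.mem_image.mpr ⟨x, hx, hxa⟩, Finset.mem_image.mpr ⟨y, hy, hyb⟩⟩
  choose r hr0 hr1 hr2 using key
  refine ⟨fun x y => r (α x) (β y) (δ' y) (δ x), fun x y => hr0 _ _ _ _, ?_, ?_⟩
  · have hsum : ∑ x ∈ X, ∑ y ∈ Y, r (α x) (β y) (δ' y) (δ x) =
        ∑ a ∈ X.image α, ∑ b ∈ Y.image β, ((X.filter (fun x => α x = a)).card : ℝ) *
          ((Y.filter (fun y => β y = b)).card : ℝ) *
          ∑ u, ∑ v, nsw Y β δ' b u * nsw X α δ a v * r a b u v := by
      have e1 : ∀ x : ℤ, ∑ y ∈ Y, r (α x) (β y) (δ' y) (δ x) =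
          ∑ b ∈ Y.image β, ((Y.filter (fun y => β y = b)).card : ℝ) *
            ∑ u, nsw Y β δ' b u * r (α x) b u (δ x) := fun x =>
        ns_avg Y β δ' (fun b u => r (α x) b u (δ x))
      simp only [e1]
      rw [ns_avg X α δ (fun a v => ∑ b ∈ Y.image β, ((Y.filter (fun y => β y = b)).card : ℝ) *
            ∑ u, nsw Y β δ' b u * r a b u v)]
      refine Finset.sum_congr rfl fun a _ => ?_
      simp only [Finset.mul_sum]
      rw [Finset.sum_comm]
      refine Finset.sum_congr rfl fun b _ => ?_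
      rw [Finset.sum_comm]
      refine Finset.sum_congr rfl fun u _ => Finset.sum_congr rfl fun v _ => ?_
      ring
    have hgX := ns_ent X hX α δ
    have hgY := ns_ent Y hY β δ'
    have hcX : ∑ a ∈ X.image α, ((X.filter (fun x => α x = a)).card : ℝ) = X.card := by
      have := ns_avg X α δ (fun _ _ => (1 : ℝ))
      simp only [Finset.sum_const, nsmul_eq_mul, mul_one] at this
      rw [this]
      refine Finset.sum_congr rfl fun a ha => ?_
      rw [ns_sum X α δ ha, mul_one]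
    have hcY : ∑ b ∈ Y.image β, ((Y.filter (fun y => β y = b)).card : ℝ) = Y.card := by
      have := ns_avg Y β δ' (fun _ _ => (1 : ℝ))
      simp only [Finset.sum_const, nsmul_eq_mul, mul_one] at this
      rw [this]
      refine Finset.sum_congr rfl fun a ha => ?_
      rw [ns_sum Y β δ' ha, mul_one]
    have hfin : ∑ a ∈ X.image α, ∑ b ∈ Y.image β, ((X.filter (fun x => α x = a)).card : ℝ) *
          ((Y.filter (fun y => β y = b)).card : ℝ) *
          (K * (η * (ent (nsw Y β δ' b) + ent (nsw X α δ a) +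
            ent (nsw Y β δ' b) * ent (nsw X α δ a)))) =
        K * (η * (X.card * Y.card * (gap X α δ + gap Y β δ' + gap X α δ * gap Y β δ'))) := by
      have e : ∀ a b : ℤ, ((X.filter (fun x => α x = a)).card : ℝ) *
          ((Y.filter (fun y => β y = b)).card : ℝ) *
          (K * (η * (ent (nsw Y β δ' b) + ent (nsw X α δ a) +
            ent (nsw Y β δ' b) * ent (nsw X α δ a)))) =
          K * η * (((X.filter (fun x => α x = a)).card : ℝ) *
              (((Y.filter (fun y => β y = b)).card : ℝ) * ent (nsw Y β δ' b)) +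
            (((X.filter (fun x => α x = a)).card : ℝ) * ent (nsw X α δ a)) *
              ((Y.filter (fun y => β y = b)).card : ℝ) +
            (((X.filter (fun x => α x = a)).card : ℝ) * ent (nsw X α δ a)) *
              (((Y.filter (fun y => β y = b)).card : ℝ) * ent (nsw Y β δ' b))) := by
        intro a b
        ring
      simp only [e]
      simp only [← Finset.mul_sum, Finset.sum_add_distrib]
      rw [← Finset.sum_mul, ← Finset.sum_mul, ← Finset.sum_mul, hcX, hcY, hgX, hgY]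
      ring
    rw [← hfin, hsum]
    refine Finset.sum_le_sum fun a ha => ?_
    refine Finset.sum_le_sum fun b hb => ?_
    exact mul_le_mul_of_nonneg_left (hr1 a b ha hb) (by positivity)
  · intro l hl hl0
    have h2 : ∀ a b : ℤ, ∃ c : Fin K → ZMod p → ZMod p → ℝ,
        (∀ i u v, 0 ≤ c i u v) ∧
        (∀ i z, ∑ u, ∑ v,
          (if l i * u + v = z ∧ (∃ y ∈ Y, β y = b ∧ δ' y = u) ∧
              (∃ x ∈ X, α x = a ∧ δ x = v) then
            Real.exp (-(c i u v)) else 0) ≤ 1) ∧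
        ∀ u v, ∑ i, c i u v ≤ r a b u v := fun a b => hr2 a b l hl hl0
    choose c hc0 hc1 hc2 using h2
    exact ⟨fun i a b u v => c a b i u v, fun i a b u v => hc0 a b i u v,
      fun i a b z => hc1 a b i z, fun x _ y _ => hc2 (α x) (β y) (δ' y) (δ x)⟩

end Pool.Agent.Helper80.DR
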