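import Pool.Agent.Helper80.DR.Defs

set_option autoImplicit false

/-!
# DR-10 Split: cutting the primes in two parts

Proof. `∑_{a ∈ A} |tops a| ≥ c0 |A||T|`, `|tops a| ≤ |T|`, so `A0 = {a ∈ A : |tops a| ≥ (c0/2)|T|}` has
at least `(c0/2)|A|` elements. For `a ∈ A0` let `π(a) ∈ T` be the `m`-th smallest element of
`tops σ T a` (`1 ≤ m ≤ (c0/2)|T|`), i.e. exactly `m` elements of `tops σ T a` are `≤ π(a)`.
Pigeonhole over the `|T|` values of `π`.
-/

namespace Pool.Agent.Helper80.DR

open Finset

private theorem exists_rank (S : Finset ℕ) : ∀ m : ℕ, 1 ≤ m → m ≤ S.card →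
    ∃ π ∈ S, (S.filter (fun p => p ≤ π)).card = m := by
  induction S using Finset.induction_on_max with
  | empty =>
    intro m h1 h2
    rw [Finset.card_empty] at h2
    omega
  | insert x S hx ih =>
    intro m h1 h2
    have hxS : x ∉ S := fun h => lt_irrefl _ (hx x h)
    rw [Finset.card_insert_of_notMem hxS] at h2
    rcases Nat.lt_or_ge S.card m with h | h
    · refine ⟨x, Finset.mem_insert_self _ _, ?_⟩
      rw [Finset.filter_true_of_mem, Finset.card_insert_of_notMem hxS]
      · omega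
      · intro y hy
        rcases Finset.mem_insert.1 hy with rfl | hy
        · exact le_rfl
        · exact (hx y hy).le
    · obtain ⟨π, hπ, hc⟩ := ih m h1 h
      refine ⟨π, Finset.mem_insert_of_mem hπ, ?_⟩
      rw [Finset.filter_insert, if_neg (not_le.2 (hx π hπ)), hc]

private theorem tops_filter (σ : ℕ → ℕ) (T : Finset ℕ) (a : ℤ) (P : ℕ → Prop) [DecidablePred P] :
    tops σ (T.filter P) a = (tops σ T a).filter P := by
  unfold tops
  ext p
  simp only [Finset.mem_filter]
  tauto

/-- [DR-10] -/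
theorem split (σ : ℕ → ℕ) (T : Finset ℕ) (A : Finset ℤ) (c0 : ℝ) (hc0 : 0 < c0) (m : ℕ)
    (hm : 1 ≤ m) (hmT : (m : ℝ) ≤ c0 / 2 * T.card)
    (hpop : ∀ p ∈ T, c0 * A.card ≤ ((A.filter (fun a => p ∈ tops σ T a)).card : ℝ)) :
    ∃ π ∈ T, ∃ A1 ⊆ A, c0 / 2 * A.card / T.card ≤ (A1.card : ℝ) ∧
      ∀ a ∈ A1, (tops σ (T.filter (fun p => p ≤ π)) a).card = m ∧
        c0 / 2 * T.card - m ≤ ((tops σ (T.filter (fun p => π < p)) a).card : ℝ) := by
  classical
  have hT : 0 < (T.card : ℝ) := by
    have h1 : (1 : ℝ) ≤ m := by exact_mod_cast hm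
    by_contra hneg
    have h2 : (T.card : ℝ) = 0 := le_antisymm (not_lt.1 hneg) (Nat.cast_nonneg _)
    rw [h2, mul_zero] at hmT
    linarith
  have hTne : T.Nonempty := by
    rw [← Finset.card_pos]
    exact_mod_cast hT
  set A0 : Finset ℤ := A.filter (fun a => c0 / 2 * T.card ≤ ((tops σ T a).card : ℝ)) with hA0
  have hcount : ∑ a ∈ A, ((tops σ T a).card : ℝ)
      = ∑ p ∈ T, ((A.filter (fun a => p ∈ tops σ T a)).card : ℝ) := by
    have h1 : ∀ a : ℤ, ((tops σ T a).card : ℝ) = ∑ p ∈ T, if p ∈ tops σ T a then (1 : ℝ) else 0 := by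
      intro a
      rw [← Finset.sum_filter, Finset.sum_const, nsmul_eq_mul, mul_one]
      congr 2
      ext p
      rw [Finset.mem_filter]
      constructor
      · intro h
        refine ⟨?_, h⟩
        unfold tops at h
        exact (Finset.mem_filter.1 h).1
      · exact fun h => h.2
    have h2 : ∀ p : ℕ, ((A.filter (fun a => p ∈ tops σ T a)).card : ℝ)
        = ∑ a ∈ A, if p ∈ tops σ T a then (1 : ℝ) else 0 := by
      intro p
      rw [← Finset.sum_filter, Finset.sum_const, nsmul_eq_mul, mul_one]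
    rw [Finset.sum_congr rfl fun a _ => h1 a, Finset.sum_comm]
    exact Finset.sum_congr rfl fun p _ => (h2 p).symm
  have hlow : c0 * A.card * T.card ≤ ∑ a ∈ A, ((tops σ T a).card : ℝ) := by
    rw [hcount]
    calc c0 * A.card * T.card = ∑ _p ∈ T, c0 * A.card := by
          rw [Finset.sum_const, nsmul_eq_mul]; ring
      _ ≤ _ := Finset.sum_le_sum hpop
  have hup : ∑ a ∈ A, ((tops σ T a).card : ℝ) ≤ A0.card * T.card + c0 / 2 * T.card * A.card := by
    have h3 : ∀ a ∈ A, ((tops σ T a).card : ℝ)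
        ≤ (if c0 / 2 * T.card ≤ ((tops σ T a).card : ℝ) then (T.card : ℝ) else 0)
          + c0 / 2 * T.card := by
      intro a _
      have h4 : ((tops σ T a).card : ℝ) ≤ T.card := by
        exact_mod_cast Finset.card_le_card (Finset.filter_subset _ _)
      have h5 : 0 ≤ c0 / 2 * T.card := by positivity
      split_ifs with h
      · linarith
      · linarith [not_le.1 h]
    calc ∑ a ∈ A, ((tops σ T a).card : ℝ)
        ≤ ∑ a ∈ A, ((if c0 / 2 * T.card ≤ ((tops σ T a).card : ℝ) then (T.card : ℝ) else 0)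
          + c0 / 2 * T.card) := Finset.sum_le_sum h3
      _ = _ := by
        rw [Finset.sum_add_distrib, ← Finset.sum_filter, Finset.sum_const, Finset.sum_const,
          nsmul_eq_mul, nsmul_eq_mul]
        ring
  have hA0c : c0 / 2 * A.card ≤ (A0.card : ℝ) := by
    have h6 : c0 / 2 * A.card * T.card ≤ A0.card * T.card := by nlinarith [hlow, hup]
    exact le_of_mul_le_mul_right h6 hT
  have hex : ∀ a : ℤ, ∃ π : ℕ, a ∈ A0 → π ∈ T ∧ ((tops σ T a).filter (fun p => p ≤ π)).card = m := by
    intro a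
    by_cases ha : a ∈ A0
    · have h7 : c0 / 2 * T.card ≤ ((tops σ T a).card : ℝ) := (Finset.mem_filter.1 ha).2
      have h8 : m ≤ (tops σ T a).card := by
        have : (m : ℝ) ≤ ((tops σ T a).card : ℝ) := hmT.trans h7
        exact_mod_cast this
      obtain ⟨π, hπ, hc⟩ := exists_rank (tops σ T a) m hm h8
      exact ⟨π, fun _ => ⟨(Finset.mem_filter.1 (by unfold tops at hπ; exact hπ)).1, hc⟩⟩
    · exact ⟨0, fun h => absurd h ha⟩
  choose f hf using hex
  obtain ⟨π, hπ, hb⟩ := Finset.exists_le_card_fiber_of_nsmul_le_card_of_maps_to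
    (s := A0) (t := T) (f := f) (b := c0 / 2 * A.card / T.card)
    (fun a ha => (hf a ha).1) hTne (by
      rw [nsmul_eq_mul, mul_div_cancel₀ _ hT.ne']
      exact hA0c)
  refine ⟨π, hπ, A0.filter (fun a => f a = π), ?_, hb, ?_⟩
  · exact (Finset.filter_subset _ _).trans (Finset.filter_subset _ _)
  · intro a ha
    obtain ⟨ha0, hfa⟩ := Finset.mem_filter.1 ha
    have h9 := (hf a ha0).2
    rw [hfa] at h9
    have h10 : c0 / 2 * T.card ≤ ((tops σ T a).card : ℝ) := (Finset.mem_filter.1 ha0).2
    have h11 : ((tops σ T a).filter (fun p => p ≤ π)).card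
        + ((tops σ T a).filter (fun p => π < p)).card = (tops σ T a).card := by
      have h12 := Finset.card_filter_add_card_filter_not (s := tops σ T a) (fun p => p ≤ π)
      simpa only [not_le] using h12
    refine ⟨?_, ?_⟩
    · rw [tops_filter]
      exact h9
    · rw [tops_filter]
      rw [h9] at h11
      have h13 : (m : ℝ) + (((tops σ T a).filter (fun p => π < p)).card : ℝ)
          = ((tops σ T a).card : ℝ) := by exact_mod_cast h11
      linarith

end Pool.Agent.Helper80.DR
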