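import Pool.Agent.Helper80.DR.Tops

set_option autoImplicit false

/-!
# DR-11 Tuples: a common tuple of multipliers

Proof. `M = |powersetCard m P|`. Classes: `a ~ a'` iff `low a = low a'`. The elements of classes with
fewer than `K` elements are at most `K * #classes ≤ |A1|/2`. A class has at most `M` elements
(`a = (∏ tops a) * low a`, `tops a ∈ powersetCard m P`), so the set `B` of the values `b` of `low` whose
class has at least `K` elements satisfies `2 M |B| ≥ |A1|`. For `b ∈ B` choose an injective map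
`a_b : Fin K → class of b`; `τ_b i = tops σ P (a_b i)` is injective too. Pigeonhole on `τ_b`
(`M^K` values). `b ≠ 0` since `a ≠ 0`. (`A1` is non-empty, so there is a class with at least `K`
elements, and `τ` exists.)
-/

namespace Pool.Agent.Helper80.DR

open Finset

open Classical in
private theorem tp_prod_dvd (σ : ℕ → ℕ) (P : Finset ℕ) (hP : ∀ p ∈ P, p.Prime) (a : ℤ) :
    (∏ p ∈ tops σ P a, (p : ℤ)) ∣ a := by
  apply Finset.prod_dvd_of_coprime
  · intro p hp q hq hpq
    have hp' : p.Prime := hP p (Finset.mem_filter.mp hp).1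
    have hq' : q.Prime := hP q (Finset.mem_filter.mp hq).1
    have : Nat.Coprime p q := (Nat.coprime_primes hp' hq').mpr hpq
    exact Nat.isCoprime_iff_coprime.mpr this
  · intro p hp
    exact (Finset.mem_filter.mp hp).2.1

private theorem tp_eq (σ : ℕ → ℕ) (P : Finset ℕ) (hP : ∀ p ∈ P, p.Prime) (a : ℤ) :
    (∏ p ∈ tops σ P a, (p : ℤ)) * low σ P a = a := by
  unfold low
  exact Int.mul_ediv_cancel' (tp_prod_dvd σ P hP a)

/-- [DR-11] -/
theorem tuples (σ : ℕ → ℕ) (P : Finset ℕ) (hP : ∀ p ∈ P, p.Prime) (A1 : Finset ℤ)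
    (h0 : (0 : ℤ) ∉ A1) (hne : A1.Nonempty) (m K : ℕ) (hK : 1 ≤ K) (hcard : ∀ a ∈ A1, (tops σ P a).card = m)
    (hcl : 2 * K * (A1.image (low σ P)).card ≤ A1.card) :
    ∃ τ : Fin K → Finset ℕ, Function.Injective τ ∧ (∀ i, τ i ∈ P.powersetCard m) ∧
      ∃ B1 : Finset ℤ, (0 : ℤ) ∉ B1 ∧
        A1.card ≤ 2 * (P.powersetCard m).card ^ (K + 1) * B1.card ∧
        ∀ b ∈ B1, ∀ i, (∏ p ∈ τ i, (p : ℤ)) * b ∈ A1 := by
  classical
  set I : Finset ℤ := A1.image (low σ P) with hI
  set M : ℕ := (P.powersetCard m).card with hM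
  set cls : ℤ → Finset ℤ := fun b => A1.filter (fun a => low σ P a = b) with hcls
  have htops : ∀ a ∈ A1, tops σ P a ∈ P.powersetCard m := by
    intro a ha
    rw [Finset.mem_powersetCard]
    exact ⟨Finset.filter_subset _ _, hcard a ha⟩
  have hinjc : ∀ b, Set.InjOn (tops σ P) (cls b : Set ℤ) := by
    intro b a ha a' ha' h
    have ha2 : low σ P a = b := (Finset.mem_filter.mp (Finset.mem_coe.mp ha)).2
    have ha2' : low σ P a' = b := (Finset.mem_filter.mp (Finset.mem_coe.mp ha')).2
    rw [← tp_eq σ P hP a, ← tp_eq σ P hP a', ha2, ha2', h]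
  have hclsM : ∀ b, (cls b).card ≤ M := by
    intro b
    exact Finset.card_le_card_of_injOn (tops σ P)
      (fun a ha => htops a (Finset.mem_filter.mp (Finset.mem_coe.mp ha)).1) (hinjc b)
  set B : Finset ℤ := I.filter (fun b => K ≤ (cls b).card) with hB
  have hsum : A1.card = ∑ b ∈ I, (cls b).card := by
    apply Finset.card_eq_sum_card_fiberwise
    intro a ha
    exact Finset.mem_coe.mpr (Finset.mem_image_of_mem _ (Finset.mem_coe.mp ha))
  have hle : A1.card ≤ M * B.card + K * I.card := by
    rw [hsum]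
    calc ∑ b ∈ I, (cls b).card
        ≤ ∑ b ∈ I, ((if K ≤ (cls b).card then M else 0) + K) := by
          apply Finset.sum_le_sum
          intro b _
          split_ifs with h
          · exact (hclsM b).trans (Nat.le_add_right _ _)
          · push Not at h
            omega
      _ = M * B.card + K * I.card := by
          rw [Finset.sum_add_distrib, ← Finset.sum_filter, Finset.sum_const, Finset.sum_const,
            smul_eq_mul, smul_eq_mul]
          ring
  have hle2 : A1.card ≤ 2 * M * B.card := by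
    have h1 : 2 * (K * I.card) ≤ A1.card := by
      calc 2 * (K * I.card) = 2 * K * I.card := by ring
        _ ≤ _ := hcl
    nlinarith
  have hA1 : 0 < A1.card := Finset.card_pos.mpr hne
  have hBpos : 0 < B.card := by
    rcases Nat.eq_zero_or_pos B.card with h | h
    · rw [h] at hle2
      omega
    · exact h
  -- choice of the tuples
  have hex : ∀ b : ℤ, ∃ t : Fin K → Finset ℕ, b ∈ B → (Function.Injective t ∧
      (∀ i, t i ∈ P.powersetCard m) ∧ ∀ i, (∏ p ∈ t i, (p : ℤ)) * b ∈ A1) := by
    intro b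
    by_cases hb : b ∈ B
    · have hKb : K ≤ (cls b).card := (Finset.mem_filter.mp hb).2
      refine ⟨fun i => tops σ P ((cls b).orderEmbOfCardLe hKb i), fun _ => ⟨?_, ?_, ?_⟩⟩
      · intro i j hij
        have h1 := hinjc b (Finset.mem_coe.mpr (Finset.orderEmbOfCardLe_mem _ hKb i))
          (Finset.mem_coe.mpr (Finset.orderEmbOfCardLe_mem _ hKb j)) hij
        exact ((cls b).orderEmbOfCardLe hKb).injective h1
      · intro i
        exact htops _ (Finset.mem_filter.mp (Finset.orderEmbOfCardLe_mem _ hKb i)).1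
      · intro i
        have h1 := Finset.mem_filter.mp (Finset.orderEmbOfCardLe_mem _ hKb i)
        have h2 := tp_eq σ P hP ((cls b).orderEmbOfCardLe hKb i)
        rw [h1.2] at h2
        rw [h2]
        exact h1.1
    · exact ⟨fun _ => ∅, fun h => absurd h hb⟩
  choose t ht using hex
  set T : Finset (Fin K → Finset ℕ) := Fintype.piFinset (fun _ => P.powersetCard m) with hT
  have hTcard : T.card = M ^ K := by
    rw [hT, Fintype.card_piFinset_const]
  have hmaps : ∀ b ∈ B, t b ∈ T := by
    intro b hb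
    rw [hT, Fintype.mem_piFinset]
    exact (ht b hb).2.1
  obtain ⟨b0, hb0⟩ := Finset.card_pos.mp hBpos
  have hTne : T.Nonempty := ⟨t b0, hmaps b0 hb0⟩
  have hBsum : B.card = ∑ τ ∈ T, (B.filter (fun b => t b = τ)).card := by
    apply Finset.card_eq_sum_card_fiberwise
    intro b hb
    exact Finset.mem_coe.mpr (hmaps b (Finset.mem_coe.mp hb))
  have hpig : ∃ τ ∈ T, B.card ≤ T.card * (B.filter (fun b => t b = τ)).card := by
    by_contra hcon
    push Not at hcon
    have h1 : ∑ τ ∈ T, T.card * (B.filter (fun b => t b = τ)).card < ∑ _τ ∈ T, B.card :=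
      Finset.sum_lt_sum_of_nonempty hTne hcon
    rw [← Finset.mul_sum, ← hBsum, Finset.sum_const, smul_eq_mul] at h1
    exact lt_irrefl _ h1
  obtain ⟨τ, _, hτ⟩ := hpig
  set B1 : Finset ℤ := B.filter (fun b => t b = τ) with hB1
  have hB1pos : 0 < B1.card := by
    rcases Nat.eq_zero_or_pos B1.card with h | h
    · rw [h] at hτ
      omega
    · exact h
  obtain ⟨b1, hb1⟩ := Finset.card_pos.mp hB1pos
  have hb1' := Finset.mem_filter.mp hb1
  have hτb : t b1 = τ := hb1'.2
  refine ⟨τ, ?_, ?_, B1, ?_, ?_, ?_⟩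
  · rw [← hτb]
    exact (ht b1 hb1'.1).1
  · intro i
    rw [← hτb]
    exact (ht b1 hb1'.1).2.1 i
  · intro h
    have h1 := (Finset.mem_filter.mp h).1
    have h2 := (Finset.mem_filter.mp h1).1
    obtain ⟨a, ha, ha2⟩ := Finset.mem_image.mp h2
    have h3 := tp_eq σ P hP a
    rw [ha2, mul_zero] at h3
    rw [← h3] at ha
    exact h0 ha
  · calc A1.card ≤ 2 * M * B.card := hle2
      _ ≤ 2 * M * (T.card * B1.card) := Nat.mul_le_mul_left _ hτ
      _ = 2 * M ^ (K + 1) * B1.card := by
          rw [hTcard]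
          ring
  · intro b hb i
    have h1 := Finset.mem_filter.mp hb
    have h2 := (ht b h1.1).2.2 i
    rw [h1.2] at h2
    exact h2

end Pool.Agent.Helper80.DR
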