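import Pool.Agent.Helper80.DR.Tops
import Pool.Agent.Helper80.DR.ChooseSum
import Pool.Agent.Helper80.DR.Split
import Pool.Agent.Helper80.DR.Tuples
import Pool.Agent.Helper80.DR.BadPrimes
import Pool.Agent.Helper80.DR.Fibres

set_option autoImplicit false

/-!
# DR-14 StructOf: assembly of the structure

Notation: `N = |A|`, `L = log N`, `t = |T|`, `a = c0/2`, `ρ = (a/8) log 2`.
Constants. `κ6` from `choose_sum (ρ/4)`; `δ' = κ6 * c3`. Given `K`: `κ7` from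
`choose_sum (ρ/(4(K+1)))`, `κ = min κ7 (a/(8K^2))` (so `κ ≤ a/8`), `c = min (κ c3 (log 2)/8) (ρ c3/4)`. `N0` so
large that for `L ≥ N0` and `c3 L ≤ t ≤ 2 c3 L`: `κ t ≥ 2`, `(4Kt/a) exp(-(3/8) κ (log 2) t) ≤ 1`,
`(16 t/a) exp(-(ρ/4) t) ≤ 1`, `log (8t/a) ≤ (ε/2) L`.
1. `top_choice`: `σ` with `a N ≤ #{x ∈ A : p ∈ tops σ T x}` for `p ∈ T`.
2. `m = ⌊κ t⌋`, `κ t/2 ≤ m ≤ κ t ≤ (a/8) t`. `split` (with `c0 := a`): `π`, `A1 ⊆ A`, `|A1| ≥ aN/(2t)`;
   `P1 = {p ∈ T : p ≤ π}`, `P' = {p ∈ T : π < p}`: `|tops P1| = m`, `|tops P'| ≥ (a/2)t - m ≥ (a/4) t`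
   on `A1`.
3. `hull` for `P1`, `B = A1`, `r = m`: `#classes ≤ |Q| 2^(-m) ≤ N exp(cL - (κ/2)(log 2) t)
   ≤ N exp(-(3/8) κ (log 2) t)` (`cL ≤ κ (log 2) t/8`), so `2K #classes ≤ |A1|`.
4. `tuples` for `P1`: `τ`, `B1`, `M = |powersetCard m P1| ≤ C(t,m) ≤ exp(ρ t/(4(K+1)))`, so
   `|B1| ≥ |A1|/(2 M^(K+1)) ≥ (aN/(4t)) exp(-(ρ/4)t)`. `q i = ∏ τ i`.
5. `badPrimes`: `P'' ⊆ P'`, `|P' \ P''| ≤ K^2 m ≤ (a/8) t`. For `b ∈ B1`: `q 0 * b ∈ A1` and
   `tops σ P'' (q 0 * b) = tops σ P'' b` (`tops_div_disjoint`: primes of `τ 0` are `≤ π`), so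
   `|tops σ P'' b| ≥ (a/8) t`; `r = ⌈(a/8) t⌉`, `2^r ≥ exp(ρ t)`.
6. `hull` for `P''`, `B = q 0 * B1 ⊆ A`: `#low(B1) = #low(q 0 B1) ≤ |Q| 2^(-r) ≤ N exp(cL - ρ t)
   ≤ N exp(-(3/4) ρ t)` (`low σ P'' (q 0 * b) = q 0 * low σ P'' b`).
7. `θ = ⌊exp((ρ/4)t)⌋ + 1 ≤ 2 exp((ρ/4)t)`, `s = ⌊κ6 t⌋ + 1`: `∑_{j<s} C(|P''|,j) ≤
   ∑_{j ≤ ⌊κ6 t⌋} C(t,j) ≤ exp((ρ/4)t) < θ`, and `2θ #low(B1) ≤ 4 N exp(-(ρ/2) t) ≤ |B1|`. `fibres` for
   `P''`, `B1`: `S ⊆ P''`, `|S| ≥ s ≥ κ6 t ≥ δ' L`, `Y`, `|Y| ≥ |B1|/(2·4^t)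
   ≥ N (a/(8t)) exp(-(ρ/4 + log 4) t) ≥ N^(1-ε)` (`(ρ/4 + log 4) t ≤ 1.5 t ≤ 3 c3 L ≤ 0.3 ε L`).
8. `E = image of (P'' \ S).powerset under ∏`, `|E| ≤ 2^t ≤ N^ε`. For `H ⊆ S`, `y ∈ Y` let `D` be the set
   given by `fibres`, `e H y = ∏ (D \ S)`, so `∏ H * e H y * y = ∏ D * y ∈ B1` and
   `q i * ∏ H * e H y * y ∈ A1 ⊆ A`. `|Y| ≤ |B1| ≤ |A1| ≤ N` (`b ↦ q 0 * b` is injective).
-/

namespace Pool.Agent.Helper80.DR

open Finset

private lemma lin_le_exp (C b : ℝ) (hb : 0 < b) :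
    ∃ T0 : ℝ, 0 < T0 ∧ ∀ x : ℝ, T0 ≤ x → C * x ≤ Real.exp (b * x) := by
  refine ⟨max 1 (2 * C / b ^ 2), lt_max_of_lt_left one_pos, ?_⟩
  intro x hx
  have h1 : 1 ≤ x := le_trans (le_max_left _ _) hx
  have h2 : 2 * C / b ^ 2 ≤ x := le_trans (le_max_right _ _) hx
  have hbx : 0 ≤ b * x := by positivity
  have h3 := Real.quadratic_le_exp_of_nonneg hbx
  have h4 : 2 * C ≤ x * b ^ 2 := by rwa [div_le_iff₀ (by positivity)] at h2
  have h5 : 2 * C * x ≤ x * b ^ 2 * x := mul_le_mul_of_nonneg_right h4 (by linarith)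
  nlinarith [h3, h5, hbx]

private lemma mem_tops_dvd {σ : ℕ → ℕ} {P : Finset ℕ} {a : ℤ} {p : ℕ} (h : p ∈ tops σ P a) :
    (p : ℤ) ∣ a := by
  classical
  unfold tops at h
  exact (Finset.mem_filter.1 h).2.1

private lemma tops_sub (σ : ℕ → ℕ) (P : Finset ℕ) (a : ℤ) : tops σ P a ⊆ P := by
  classical
  unfold tops
  exact Finset.filter_subset _ _

private lemma tops_card_le (σ : ℕ → ℕ) (P P' : Finset ℕ) (a : ℤ) :
    (tops σ P a).card ≤ (tops σ P' a).card + (P \ P').card := by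
  classical
  have h : tops σ P a ⊆ tops σ P' a ∪ (P \ P') := by
    intro p hp
    unfold tops at hp ⊢
    rw [Finset.mem_filter] at hp
    rw [Finset.mem_union, Finset.mem_filter, Finset.mem_sdiff]
    by_cases h : p ∈ P'
    · exact Or.inl ⟨h, hp.2⟩
    · exact Or.inr ⟨hp.1, h⟩
  exact (Finset.card_le_card h).trans (Finset.card_union_le _ _)

private lemma prod_ne_zero_of_prime (D : Finset ℕ) (hD : ∀ p ∈ D, p.Prime) :
    (∏ p ∈ D, (p : ℤ)) ≠ 0 := by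
  rw [Finset.prod_ne_zero_iff]
  intro p hp
  exact_mod_cast (hD p hp).ne_zero

private lemma low_mul (σ : ℕ → ℕ) (P' : Finset ℕ) (hP' : ∀ p ∈ P', p.Prime) (b : ℤ)
    (hb : b ≠ 0) (q : ℤ) (hq : q ≠ 0) (h : tops σ P' (q * b) = tops σ P' b) :
    low σ P' (q * b) = q * low σ P' b := by
  have h1 := prod_tops_mul_low σ P' hP' b hb
  have h2 := prod_tops_mul_low σ P' hP' (q * b) (mul_ne_zero hq hb)
  rw [h] at h2
  have h3 : (∏ p ∈ tops σ P' b, (p : ℤ)) ≠ 0 :=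
    prod_ne_zero_of_prime _ (fun p hp => hP' p (tops_sub _ _ _ hp))
  apply mul_left_cancel₀ h3
  rw [h2]
  calc q * b = q * ((∏ p ∈ tops σ P' b, (p : ℤ)) * low σ P' b) := by rw [h1]
    _ = _ := by ring

/-- the last step: from the data of `fibres` to the structure -/
private lemma finish (A A1 B1 : Finset ℤ) (K : ℕ) (ε δ' : ℝ) (T P'' S : Finset ℕ)
    (hTp : ∀ p ∈ T, p.Prime) (hP'' : P'' ⊆ T) (hS : S ⊆ P'') (τ : Fin K → Finset ℕ)
    (hA1 : A1 ⊆ A) (hB1A : B1.card ≤ A1.card)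
    (hB1 : ∀ b ∈ B1, ∀ i, (∏ p ∈ τ i, (p : ℤ)) * b ∈ A1)
    (hinj : ∀ p ∈ P'', Function.Injective (fun i => ((∏ x ∈ τ i, (x : ℤ) : ℤ) : ZMod p)))
    (hnz : ∀ p ∈ P'', ∀ i, ((∏ x ∈ τ i, (x : ℤ) : ℤ) : ZMod p) ≠ 0)
    (Y : Finset ℤ) (hYne : Y.Nonempty) (hYB : Y.card ≤ B1.card)
    (hYbig : (A.card : ℝ) ^ (1 - ε) ≤ (Y.card : ℝ))
    (hE : (2 : ℝ) ^ T.card ≤ (A.card : ℝ) ^ ε)
    (hSbig : δ' * Real.log (A.card : ℝ) ≤ (S.card : ℝ))
    (hfib : ∀ y ∈ Y, ∀ H ⊆ S, ∃ D ⊆ P'', D ∩ S = H ∧ (∏ p ∈ D, (p : ℤ)) * y ∈ B1) :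
    Struct A K ε δ' := by
  classical
  choose! D hD using hfib
  refine ⟨fun i => ∏ x ∈ τ i, (x : ℤ), Y, S, (P'' \ S).powerset.image (fun D => ∏ p ∈ D, p),
    fun H y => ∏ p ∈ D y H \ S, p, hYne, hYbig, ?_, ?_, ?_, hSbig, ?_, ?_, ?_, ?_, ?_⟩
  · exact hYB.trans (hB1A.trans (Finset.card_le_card hA1))
  · refine le_trans ?_ hE
    have h1 : ((P'' \ S).powerset.image (fun D => ∏ p ∈ D, p)).card ≤ 2 ^ T.card := by
      refine Finset.card_image_le.trans ?_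
      rw [Finset.card_powerset]
      exact Nat.pow_le_pow_right (by norm_num)
        (Finset.card_le_card (Finset.sdiff_subset.trans hP''))
    exact_mod_cast h1
  · exact fun p hp => hTp p (hP'' (hS hp))
  · exact fun p hp => hinj p (hS hp)
  · exact fun p hp i => hnz p (hS hp) i
  · intro H hH y hy
    rw [Finset.mem_image]
    refine ⟨D y H \ S, ?_, rfl⟩
    rw [Finset.mem_powerset]
    exact Finset.sdiff_subset_sdiff (hD y hy H hH).1 (Finset.Subset.refl _)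
  · intro d hd p hp hpd
    rw [Finset.mem_image] at hd
    obtain ⟨D', hD', rfl⟩ := hd
    rw [Finset.mem_powerset] at hD'
    have hpp : p.Prime := hTp p (hP'' (hS hp))
    obtain ⟨r, hr, hpr⟩ := (Prime.dvd_finsetProd_iff hpp.prime _).1 hpd
    have hr' := Finset.mem_sdiff.1 (hD' hr)
    have hrp : r.Prime := hTp r (hP'' hr'.1)
    have : p = r := (Nat.prime_dvd_prime_iff_eq hpp hrp).1 hpr
    exact hr'.2 (this ▸ hp)
  · intro i H hH y hy
    obtain ⟨h1, h2, h3⟩ := hD y hy H hH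
    have h4 := hA1 (hB1 _ h3 i)
    have h5 : (∏ p ∈ D y H, (p : ℤ)) = (∏ p ∈ H, (p : ℤ)) * ((∏ p ∈ D y H \ S, p : ℕ) : ℤ) := by
      have h7 := Finset.prod_inter_mul_prod_sdiff (D y H) S (fun p => (p : ℤ))
      rw [h2] at h7
      push_cast
      exact h7.symm
    rw [h5] at h4
    have h6 : (∏ x ∈ τ i, (x : ℤ)) * (∏ p ∈ H, (p : ℤ)) * ((∏ p ∈ D y H \ S, p : ℕ) : ℤ) * y
        = (∏ x ∈ τ i, (x : ℤ)) * ((∏ p ∈ H, (p : ℤ)) * ((∏ p ∈ D y H \ S, p : ℕ) : ℤ) * y) := by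
      ring
    show (∏ x ∈ τ i, (x : ℤ)) * (∏ p ∈ H, (p : ℤ)) * ((∏ p ∈ D y H \ S, p : ℕ) : ℤ) * y ∈ A
    rw [h6]
    exact h4

/-- [DR-14] -/
theorem struct_of_quotients (c0 ε c3 : ℝ) (hc0 : 0 < c0) (hc01 : c0 ≤ 1) (hε : 0 < ε)
    (hc3 : 0 < c3) (hc3ε : c3 ≤ ε / 10) :
    ∃ δ' : ℝ, 0 < δ' ∧ ∀ K : ℕ, 1 ≤ K → ∃ c : ℝ, 0 < c ∧ ∃ N0 : ℝ,
      ∀ (A Q : Finset ℤ) (T : Finset ℕ), (0 : ℤ) ∉ A → A.Nonempty →
      N0 ≤ Real.log (A.card : ℝ) → (∀ p ∈ T, p.Prime) →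
      c3 * Real.log (A.card : ℝ) ≤ (T.card : ℝ) →
      (T.card : ℝ) ≤ 2 * c3 * Real.log (A.card : ℝ) →
      (∀ p ∈ T, c0 * (A.card : ℝ) ≤ ((A.filter (fun a => (p : ℤ) ∣ a)).card : ℝ)) →
      (∀ a ∈ A, ∀ D ⊆ T, (∀ p ∈ D, (p : ℤ) ∣ a) → a / (∏ p ∈ D, (p : ℤ)) ∈ Q) →
      (Q.card : ℝ) ≤ (A.card : ℝ) ^ (1 + c) → Struct A K ε δ' := by
  classical
  obtain ⟨a, ha⟩ : ∃ a : ℝ, a = c0 / 2 := ⟨_, rfl⟩
  have ha0 : 0 < a := by rw [ha]; linarith
  have ha1 : a ≤ 1 / 2 := by rw [ha]; linarith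
  obtain ⟨l2, hl2⟩ : ∃ l2 : ℝ, l2 = Real.log 2 := ⟨_, rfl⟩
  have hl2a : 0.69 < l2 := by rw [hl2]; have := Real.log_two_gt_d9; linarith
  have hl2b : l2 < 0.7 := by rw [hl2]; have := Real.log_two_lt_d9; linarith
  have hl20 : 0 < l2 := by linarith
  obtain ⟨ρ, hρ⟩ : ∃ ρ : ℝ, ρ = a / 8 * l2 := ⟨_, rfl⟩
  have hρ0 : 0 < ρ := by rw [hρ]; positivity
  have hρ1 : ρ ≤ 0.05 := by rw [hρ]; nlinarith
  obtain ⟨κ6, hκ6, hκ6', hcs6⟩ := choose_sum (ρ / 4) (by positivity)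
  refine ⟨κ6 * c3, by positivity, ?_⟩
  intro K hK
  have hKR : (1 : ℝ) ≤ (K : ℝ) := by exact_mod_cast hK
  have hK0 : (0 : ℝ) < (K : ℝ) := by linarith
  obtain ⟨κ7, hκ7, hκ7', hcs7⟩ := choose_sum (ρ / (4 * ((K : ℝ) + 1))) (by positivity)
  obtain ⟨κ, hκ⟩ : ∃ κ : ℝ, κ = min κ7 (a / (8 * (K : ℝ) ^ 2)) := ⟨_, rfl⟩
  have hκ0 : 0 < κ := by rw [hκ]; exact lt_min hκ7 (by positivity)
  have hκ1 : κ ≤ κ7 := by rw [hκ]; exact min_le_left _ _
  have hκ2 : κ ≤ a / (8 * (K : ℝ) ^ 2) := by rw [hκ]; exact min_le_right _ _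
  have hκK : (K : ℝ) ^ 2 * κ ≤ a / 8 := by
    rw [le_div_iff₀ (by positivity)] at hκ2
    linarith
  have hκa : κ ≤ a / 8 := by
    have : 1 * κ ≤ (K : ℝ) ^ 2 * κ := by
      apply mul_le_mul_of_nonneg_right _ hκ0.le
      nlinarith
    linarith
  obtain ⟨c, hc⟩ : ∃ c : ℝ, c = min (κ * c3 * l2 / 8) (ρ * c3 / 4) := ⟨_, rfl⟩
  have hcpos : 0 < c := by rw [hc]; exact lt_min (by positivity) (by positivity)
  have hc1 : c ≤ κ * c3 * l2 / 8 := by rw [hc]; exact min_le_left _ _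
  have hc2 : c ≤ ρ * c3 / 4 := by rw [hc]; exact min_le_right _ _
  obtain ⟨T2, hT2, hT2'⟩ := lin_le_exp (4 * K / a) (3 / 8 * κ * l2) (by positivity)
  obtain ⟨T3, hT3, hT3'⟩ := lin_le_exp (16 / a) (ρ / 4) (by positivity)
  refine ⟨c, hcpos, max (max T2 T3) (2 / κ) / c3, ?_⟩
  intro A Q T h0 hne hL hTp htl htu hpop hQ hQc
  obtain ⟨N, hN⟩ : ∃ N : ℝ, N = (A.card : ℝ) := ⟨_, rfl⟩
  obtain ⟨L, hLd⟩ : ∃ L : ℝ, L = Real.log N := ⟨_, rfl⟩
  obtain ⟨t, ht⟩ : ∃ t : ℝ, t = (T.card : ℝ) := ⟨_, rfl⟩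
  have hN0 : 0 < N := by
    rw [hN]
    exact_mod_cast hne.card_pos
  rw [← hN, ← hLd] at hL htl htu
  rw [← ht] at htl htu
  have hNexp : N = Real.exp L := by rw [hLd, Real.exp_log hN0]
  have hbig : max (max T2 T3) (2 / κ) ≤ t := by
    rw [div_le_iff₀ hc3] at hL
    linarith
  have htT2 : T2 ≤ t := le_trans (le_trans (le_max_left _ _) (le_max_left _ _)) hbig
  have htT3 : T3 ≤ t := le_trans (le_trans (le_max_right _ _) (le_max_left _ _)) hbig
  have htκ : 2 ≤ κ * t := by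
    have h := le_trans (le_max_right _ _) hbig
    rw [div_le_iff₀ hκ0] at h
    linarith
  have ht0 : 0 < t := by linarith
  have hL0 : 0 < L := by nlinarith
  -- step 1
  obtain ⟨σ, hσ⟩ := top_choice A T
  have hpop' : ∀ p ∈ T, a * (A.card : ℝ) ≤ ((A.filter (fun x => p ∈ tops σ T x)).card : ℝ) := by
    intro p hp
    have h1 := hpop p hp
    have h2 : ((A.filter (fun x => (p : ℤ) ∣ x)).card : ℝ) ≤
        2 * ((A.filter (fun x => p ∈ tops σ T x)).card : ℝ) := by exact_mod_cast hσ p hp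
    rw [ha]
    linarith
  -- step 2
  obtain ⟨m, hm⟩ : ∃ m : ℕ, m = ⌊κ * t⌋₊ := ⟨_, rfl⟩
  have hm1 : (m : ℝ) ≤ κ * t := by rw [hm]; exact Nat.floor_le (by positivity)
  have hm2 : κ * t < m + 1 := by rw [hm]; exact Nat.lt_floor_add_one _
  have hm3 : κ * t / 2 ≤ m := by linarith
  have hm4 : (1 : ℝ) ≤ m := by linarith
  have hm5 : 1 ≤ m := by exact_mod_cast hm4
  have hκt : κ * t ≤ a / 8 * t := mul_le_mul_of_nonneg_right hκa ht0.le
  have hat : 0 < a * t := mul_pos ha0 ht0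
  obtain ⟨π, hπ, A1, hA1, hA1c, hA1p⟩ := split σ T A a ha0 m hm5 (by rw [← ht]; linarith) hpop'
  rw [← hN, ← ht] at hA1c
  obtain ⟨P1, hP1⟩ : ∃ P1 : Finset ℕ, P1 = T.filter (fun p => p ≤ π) := ⟨_, rfl⟩
  obtain ⟨P', hP'⟩ : ∃ P' : Finset ℕ, P' = T.filter (fun p => π < p) := ⟨_, rfl⟩
  rw [← hP1, ← hP', ← ht] at hA1p
  have hP1T : P1 ⊆ T := by rw [hP1]; exact Finset.filter_subset _ _
  have hP'T : P' ⊆ T := by rw [hP']; exact Finset.filter_subset _ _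
  have hA1pos : (0 : ℝ) < (A1.card : ℝ) := lt_of_lt_of_le (by positivity) hA1c
  have hA1ne : A1.Nonempty := by
    rw [← Finset.card_pos]
    exact_mod_cast hA1pos
  have h0A1 : (0 : ℤ) ∉ A1 := fun h => h0 (hA1 h)
  -- the size of `Q`
  have hQ1 : (Q.card : ℝ) ≤ N * Real.exp (c * L) := by
    refine hQc.trans (le_of_eq ?_)
    rw [← hN, Real.rpow_def_of_pos hN0, ← hLd, mul_add, mul_one, Real.exp_add, ← hNexp,
      mul_comm L c]
  have hcL1 : c * L ≤ κ * l2 / 8 * t := by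
    calc c * L ≤ κ * c3 * l2 / 8 * L := mul_le_mul_of_nonneg_right hc1 hL0.le
      _ = κ * l2 / 8 * (c3 * L) := by ring
      _ ≤ κ * l2 / 8 * t := mul_le_mul_of_nonneg_left htl (by positivity)
  have hcL2 : c * L ≤ ρ / 4 * t := by
    calc c * L ≤ ρ * c3 / 4 * L := mul_le_mul_of_nonneg_right hc2 hL0.le
      _ = ρ / 4 * (c3 * L) := by ring
      _ ≤ ρ / 4 * t := mul_le_mul_of_nonneg_left htl (by positivity)
  have hQmem : ∀ x ∈ A, ∀ P ⊆ T, ∀ D ⊆ tops σ P x, x / (∏ p ∈ D, (p : ℤ)) ∈ Q := by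
    intro x hx P hP D hD
    exact hQ x hx D ((hD.trans (tops_sub σ P x)).trans hP) (fun p hp => mem_tops_dvd (hD hp))
  -- step 3
  have hhull1 := hull σ P1 (fun p hp => hTp p (hP1T hp)) A1 Q h0A1 m
    (fun x hx => (hA1p x hx).1.ge) (fun x hx D hD => hQmem x (hA1 hx) P1 hP1T D hD)
  have hpow2 : ∀ n : ℕ, (2 : ℝ) ^ n = Real.exp (l2 * n) := by
    intro n
    rw [hl2, mul_comm, Real.exp_nat_mul, Real.exp_log (by norm_num)]
  have hcl1 : 2 * K * (A1.image (low σ P1)).card ≤ A1.card := by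
    have h1 : ((A1.image (low σ P1)).card : ℝ) * (2 : ℝ) ^ m ≤ (Q.card : ℝ) := by
      exact_mod_cast hhull1
    have h2 : ((A1.image (low σ P1)).card : ℝ) ≤ N * Real.exp (-(3 / 8 * κ * l2 * t)) := by
      have h3 : ((A1.image (low σ P1)).card : ℝ) * Real.exp (l2 * m) ≤ N * Real.exp (c * L) := by
        rw [← hpow2]
        exact h1.trans hQ1
      have h4 : ((A1.image (low σ P1)).card : ℝ) ≤ N * Real.exp (c * L) * Real.exp (-(l2 * m)) := by
        rw [Real.exp_neg, ← div_eq_mul_inv, le_div_iff₀ (Real.exp_pos _)]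
        exact h3
      refine h4.trans ?_
      rw [mul_assoc, ← Real.exp_add]
      apply mul_le_mul_of_nonneg_left _ hN0.le
      apply Real.exp_le_exp.2
      have h5 : l2 * (κ * t / 2) ≤ l2 * m := mul_le_mul_of_nonneg_left hm3 hl20.le
      linarith
    have h6 := hT2' t htT2
    have h7 : (2 * K * (A1.image (low σ P1)).card : ℝ) ≤ (A1.card : ℝ) := by
      refine le_trans ?_ hA1c
      calc (2 * K * (A1.image (low σ P1)).card : ℝ)
          ≤ 2 * K * (N * Real.exp (-(3 / 8 * κ * l2 * t))) :=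
            mul_le_mul_of_nonneg_left h2 (by positivity)
        _ = (a / 2 * N / t) * ((4 * K / a * t) * Real.exp (-(3 / 8 * κ * l2 * t))) := by
            field_simp
            ring
        _ ≤ (a / 2 * N / t) * 1 := by
            apply mul_le_mul_of_nonneg_left _ (by positivity)
            rw [Real.exp_neg, ← div_eq_mul_inv, div_le_one (Real.exp_pos _)]
            exact h6
        _ = a / 2 * N / t := by ring
    exact_mod_cast h7
  -- step 4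
  obtain ⟨τ, hτinj, hτ, B1, h0B1, hB1c, hB1⟩ := tuples σ P1 (fun p hp => hTp p (hP1T hp)) A1
    h0A1 hA1ne m K hK (fun x hx => (hA1p x hx).1) hcl1
  have hM : ((P1.powersetCard m).card : ℝ) ≤ Real.exp (ρ / (4 * ((K : ℝ) + 1)) * t) := by
    rw [Finset.card_powersetCard]
    have h1 : P1.card.choose m ≤ ∑ j ∈ Finset.range (m + 1), T.card.choose j := by
      refine (Nat.choose_le_choose m (Finset.card_le_card hP1T)).trans ?_
      exact Finset.single_le_sum (f := fun j => T.card.choose j) (fun _ _ => Nat.zero_le _)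
        (Finset.mem_range.2 (Nat.lt_succ_self m))
    have h2 := hcs7 T.card m (by
      rw [← ht]
      exact hm1.trans (mul_le_mul_of_nonneg_right hκ1 ht0.le))
    rw [← ht] at h2
    refine le_trans ?_ h2
    exact_mod_cast h1
  have hMK : ((P1.powersetCard m).card : ℝ) ^ (K + 1) ≤ Real.exp (ρ / 4 * t) := by
    calc ((P1.powersetCard m).card : ℝ) ^ (K + 1)
        ≤ Real.exp (ρ / (4 * ((K : ℝ) + 1)) * t) ^ (K + 1) :=
          pow_le_pow_left₀ (Nat.cast_nonneg _) hM _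
      _ = Real.exp (ρ / 4 * t) := by
          rw [← Real.exp_nat_mul]
          congr 1
          push_cast
          field_simp
  have hB1big : a * N / (4 * t) * Real.exp (-(ρ / 4 * t)) ≤ (B1.card : ℝ) := by
    have h1 : (A1.card : ℝ) ≤ 2 * ((P1.powersetCard m).card : ℝ) ^ (K + 1) * (B1.card : ℝ) := by
      exact_mod_cast hB1c
    have h2 : (A1.card : ℝ) ≤ 2 * Real.exp (ρ / 4 * t) * (B1.card : ℝ) := by
      refine h1.trans ?_
      apply mul_le_mul_of_nonneg_right _ (Nat.cast_nonneg _)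
      exact mul_le_mul_of_nonneg_left hMK (by norm_num)
    have h3 := hA1c.trans h2
    rw [Real.exp_neg, ← div_eq_mul_inv, div_le_iff₀ (Real.exp_pos _)]
    have h4 : a * N / (4 * t) = (a / 2 * N / t) / 2 := by
      field_simp
      ring
    rw [h4]
    linarith
  have hB1pos : (0 : ℝ) < (B1.card : ℝ) := lt_of_lt_of_le (by positivity) hB1big
  have hB1ne : B1.Nonempty := by
    rw [← Finset.card_pos]
    exact_mod_cast hB1pos
  -- step 5
  have hτm : ∀ i, (τ i).card = m := fun i => (Finset.mem_powersetCard.1 (hτ i)).2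
  have hτP : ∀ i, τ i ⊆ P1 := fun i => (Finset.mem_powersetCard.1 (hτ i)).1
  obtain ⟨P'', hP'', hP''c, hinj, hnz⟩ := badPrimes K m π τ hτinj hτm
    (fun i p hp => by
      have h := hτP i hp
      refine ⟨hTp p (hP1T h), ?_⟩
      rw [hP1, Finset.mem_filter] at h
      exact h.2) P'
    (fun p hp => by
      refine ⟨hTp p (hP'T hp), ?_⟩
      rw [hP', Finset.mem_filter] at hp
      exact hp.2)
  have hP''T : P'' ⊆ T := hP''.trans hP'T
  have hP''p : ∀ p ∈ P'', p.Prime := fun p hp => hTp p (hP''T hp)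
  obtain ⟨i0, -⟩ : ∃ i0 : Fin K, True := ⟨⟨0, hK⟩, trivial⟩
  obtain ⟨q0, hq0⟩ : ∃ q0 : ℤ, q0 = ∏ p ∈ τ i0, (p : ℤ) := ⟨_, rfl⟩
  have hq0ne : q0 ≠ 0 := by
    rw [hq0]
    exact prod_ne_zero_of_prime _ (fun p hp => hTp p (hP1T (hτP i0 hp)))
  have hbne : ∀ b ∈ B1, b ≠ 0 := fun b hb h => h0B1 (h ▸ hb)
  have hq0b : ∀ b ∈ B1, q0 * b ∈ A1 := by
    intro b hb
    rw [hq0]
    exact hB1 b hb i0
  have hdisj : Disjoint (τ i0) P'' := by
    rw [Finset.disjoint_left]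
    intro p hp hp'
    have h1 := hτP i0 hp
    have h2 := hP'' hp'
    rw [hP1, Finset.mem_filter] at h1
    rw [hP', Finset.mem_filter] at h2
    exact absurd h1.2 (not_le.2 h2.2)
  have htops : ∀ b ∈ B1, tops σ P'' (q0 * b) = tops σ P'' b := by
    intro b hb
    rw [hq0]
    exact tops_div_disjoint σ P1 P'' (fun p hp => hTp p (hP1T hp)) hP''p b (hbne b hb) (τ i0)
      (hτP i0) hdisj
  obtain ⟨r, hr⟩ : ∃ r : ℕ, r = ⌈a / 8 * t⌉₊ := ⟨_, rfl⟩
  have hr1 : a / 8 * t ≤ r := by rw [hr]; exact Nat.le_ceil _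
  have hrle : ∀ x ∈ A1, r ≤ (tops σ P'' x).card := by
    intro x hx
    rw [hr, Nat.ceil_le]
    have h1 := (hA1p x hx).2
    have h2 := tops_card_le σ P' P'' x
    have h3 : (P' \ P'').card + P''.card = P'.card := Finset.card_sdiff_add_card_eq_card hP''
    have h4 : (tops σ P' x).card ≤ (tops σ P'' x).card + K ^ 2 * m := by omega
    have h5 : ((tops σ P' x).card : ℝ) ≤ ((tops σ P'' x).card : ℝ) + (K : ℝ) ^ 2 * m := by
      exact_mod_cast h4
    have h6 : (K : ℝ) ^ 2 * m ≤ a / 8 * t := by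
      calc (K : ℝ) ^ 2 * m ≤ (K : ℝ) ^ 2 * (κ * t) :=
            mul_le_mul_of_nonneg_left hm1 (by positivity)
        _ = (K : ℝ) ^ 2 * κ * t := by ring
        _ ≤ a / 8 * t := mul_le_mul_of_nonneg_right hκK ht0.le
    linarith
  -- step 6
  have hB1A1 : B1.image (fun b => q0 * b) ⊆ A1 := by
    intro x hx
    rw [Finset.mem_image] at hx
    obtain ⟨b, hb, rfl⟩ := hx
    exact hq0b b hb
  have hhull2 := hull σ P'' hP''p (B1.image (fun b => q0 * b)) Q (fun h => h0A1 (hB1A1 h)) r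
    (fun x hx => hrle x (hB1A1 hx)) (fun x hx D hD => hQmem x (hA1 (hB1A1 hx)) P'' hP''T D hD)
  have himg : ((B1.image (fun b => q0 * b)).image (low σ P'')).card =
      (B1.image (low σ P'')).card := by
    rw [Finset.image_image]
    have h1 : B1.image (low σ P'' ∘ fun b => q0 * b) = (B1.image (low σ P'')).image
        (fun u => q0 * u) := by
      rw [Finset.image_image]
      apply Finset.image_congr
      intro b hb
      exact low_mul σ P'' hP''p b (hbne b hb) q0 hq0ne (htops b hb)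
    rw [h1]
    exact Finset.card_image_of_injective _ (mul_right_injective₀ hq0ne)
  rw [himg] at hhull2
  have hlow : ((B1.image (low σ P'')).card : ℝ) ≤ N * Real.exp (-(3 / 4 * ρ * t)) := by
    have h1 : ((B1.image (low σ P'')).card : ℝ) * (2 : ℝ) ^ r ≤ (Q.card : ℝ) := by
      exact_mod_cast hhull2
    have h3 : ((B1.image (low σ P'')).card : ℝ) * Real.exp (l2 * r) ≤ N * Real.exp (c * L) := by
      rw [← hpow2]
      exact h1.trans hQ1
    have h4 : ((B1.image (low σ P'')).card : ℝ) ≤ N * Real.exp (c * L) * Real.exp (-(l2 * r)) := by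
      rw [Real.exp_neg, ← div_eq_mul_inv, le_div_iff₀ (Real.exp_pos _)]
      exact h3
    refine h4.trans ?_
    rw [mul_assoc, ← Real.exp_add]
    apply mul_le_mul_of_nonneg_left _ hN0.le
    apply Real.exp_le_exp.2
    have h5 : l2 * (a / 8 * t) ≤ l2 * r := mul_le_mul_of_nonneg_left hr1 hl20.le
    have h6 : ρ * t = l2 * (a / 8 * t) := by rw [hρ]; ring
    linarith
  -- step 7
  obtain ⟨θ, hθ⟩ : ∃ θ : ℕ, θ = ⌊Real.exp (ρ / 4 * t)⌋₊ + 1 := ⟨_, rfl⟩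
  obtain ⟨s, hs⟩ : ∃ s : ℕ, s = ⌊κ6 * t⌋₊ + 1 := ⟨_, rfl⟩
  have hexp1 : 1 ≤ Real.exp (ρ / 4 * t) := Real.one_le_exp (by positivity)
  have hθ1 : (θ : ℝ) ≤ 2 * Real.exp (ρ / 4 * t) := by
    rw [hθ]
    push_cast
    have := Nat.floor_le (Real.exp_pos (ρ / 4 * t)).le
    linarith
  have hθ2 : Real.exp (ρ / 4 * t) < θ := by
    rw [hθ]
    push_cast
    exact Nat.lt_floor_add_one _
  have hs1 : κ6 * t ≤ s := by
    rw [hs]
    push_cast
    exact (Nat.lt_floor_add_one _).le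
  have h16 := hT3' t htT3
  have hcl2 : 2 * θ * (B1.image (low σ P'')).card ≤ B1.card := by
    have h1 : (2 * θ * (B1.image (low σ P'')).card : ℝ) ≤ (B1.card : ℝ) := by
      refine le_trans ?_ hB1big
      calc (2 * θ * (B1.image (low σ P'')).card : ℝ)
          ≤ 2 * (2 * Real.exp (ρ / 4 * t)) * (N * Real.exp (-(3 / 4 * ρ * t))) := by
            apply mul_le_mul _ hlow (Nat.cast_nonneg _) (by positivity)
            exact mul_le_mul_of_nonneg_left hθ1 (by norm_num)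
        _ = 4 * N * (Real.exp (ρ / 4 * t) * Real.exp (-(3 / 4 * ρ * t))) := by ring
        _ = 4 * N * (Real.exp (-(ρ / 4 * t)) * Real.exp (-(ρ / 4 * t))) := by
            rw [← Real.exp_add, ← Real.exp_add]
            congr 2
            ring
        _ = (a * N / (4 * t)) * ((16 / a * t) * Real.exp (-(ρ / 4 * t))) *
              Real.exp (-(ρ / 4 * t)) := by
            field_simp
            ring
        _ ≤ (a * N / (4 * t)) * 1 * Real.exp (-(ρ / 4 * t)) := by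
            apply mul_le_mul_of_nonneg_right _ (Real.exp_pos _).le
            apply mul_le_mul_of_nonneg_left _ (by positivity)
            rw [Real.exp_neg, ← div_eq_mul_inv, div_le_one (Real.exp_pos _)]
            exact h16
        _ = a * N / (4 * t) * Real.exp (-(ρ / 4 * t)) := by ring
    exact_mod_cast h1
  have hθs : ∑ j ∈ Finset.range s, P''.card.choose j < θ := by
    have h1 : ∑ j ∈ Finset.range s, P''.card.choose j ≤
        ∑ j ∈ Finset.range (⌊κ6 * t⌋₊ + 1), T.card.choose j := by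
      rw [hs]
      exact Finset.sum_le_sum (fun j _ => Nat.choose_le_choose j (Finset.card_le_card hP''T))
    have h2 := hcs6 T.card ⌊κ6 * t⌋₊ (by
      rw [← ht]
      exact Nat.floor_le (by positivity))
    rw [← ht] at h2
    have h3 : ((∑ j ∈ Finset.range s, P''.card.choose j : ℕ) : ℝ) ≤
        ((∑ j ∈ Finset.range (⌊κ6 * t⌋₊ + 1), T.card.choose j : ℕ) : ℝ) := by
      exact_mod_cast h1
    exact_mod_cast (h3.trans h2).trans_lt hθ2
  obtain ⟨S, hS, hSs, Y, hYne, hYB, hBY, hfib⟩ := fibres σ P'' hP''p B1 h0B1 hB1ne θ s hcl2 hθs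
  -- step 8
  have hB1A : B1.card ≤ A1.card := by
    rw [← Finset.card_image_of_injective B1 (mul_right_injective₀ hq0ne)]
    exact Finset.card_le_card hB1A1
  refine finish A A1 B1 K ε (κ6 * c3) T P'' S hTp hP''T hS τ hA1 hB1A hB1 hinj hnz Y hYne hYB
    ?_ ?_ ?_ hfib
  · -- the size of `Y`
    have h1 : (B1.card : ℝ) ≤ 2 * (4 : ℝ) ^ P''.card * (Y.card : ℝ) := by exact_mod_cast hBY
    have h2 : (4 : ℝ) ^ P''.card ≤ Real.exp (2 * l2 * t) := by
      calc (4 : ℝ) ^ P''.card ≤ (4 : ℝ) ^ T.card :=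
            pow_le_pow_right₀ (by norm_num) (Finset.card_le_card hP''T)
        _ = ((2 : ℝ) ^ T.card) ^ 2 := by
            rw [← pow_mul, mul_comm, pow_mul]
            norm_num
        _ = Real.exp (2 * l2 * t) := by
            rw [hpow2, ← Real.exp_nat_mul, ← ht]
            congr 1
            push_cast
            ring
    have h3 : (B1.card : ℝ) ≤ 2 * Real.exp (2 * l2 * t) * (Y.card : ℝ) := by
      refine h1.trans ?_
      apply mul_le_mul_of_nonneg_right _ (Nat.cast_nonneg _)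
      exact mul_le_mul_of_nonneg_left h2 (by norm_num)
    have h4 := hB1big.trans h3
    have h5 : a * N / (8 * t) * Real.exp (-(ρ / 4 * t)) * Real.exp (-(2 * l2 * t)) ≤
        (Y.card : ℝ) := by
      rw [Real.exp_neg (2 * l2 * t), ← div_eq_mul_inv, div_le_iff₀ (Real.exp_pos _)]
      have h6 : a * N / (8 * t) = a * N / (4 * t) / 2 := by
        field_simp
        ring
      rw [h6]
      linarith
    refine le_trans ?_ h5
    rw [← hN, Real.rpow_def_of_pos hN0, ← hLd]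
    have h7 : Real.exp (-(ρ / 4 * t)) ≤ a / (8 * t) := by
      rw [Real.exp_neg, inv_eq_one_div, div_le_div_iff₀ (Real.exp_pos _) (by positivity)]
      have h8 : 16 / a * t = 16 * t / a := by ring
      rw [h8, div_le_iff₀ ha0] at h16
      nlinarith
    have h9 : N * Real.exp (-(ρ / 4 * t)) * Real.exp (-(ρ / 4 * t)) * Real.exp (-(2 * l2 * t)) ≤
        a * N / (8 * t) * Real.exp (-(ρ / 4 * t)) * Real.exp (-(2 * l2 * t)) := by
      apply mul_le_mul_of_nonneg_right _ (Real.exp_pos _).le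
      apply mul_le_mul_of_nonneg_right _ (Real.exp_pos _).le
      calc N * Real.exp (-(ρ / 4 * t)) ≤ N * (a / (8 * t)) :=
            mul_le_mul_of_nonneg_left h7 hN0.le
        _ = a * N / (8 * t) := by ring
    refine le_trans ?_ h9
    rw [hNexp, ← Real.exp_add, ← Real.exp_add, ← Real.exp_add]
    apply Real.exp_le_exp.2
    have h10 : (ρ / 2 + 2 * l2) * t ≤ 1.5 * t := by
      apply mul_le_mul_of_nonneg_right _ ht0.le
      linarith
    have h11 : c3 * L ≤ ε / 10 * L := mul_le_mul_of_nonneg_right hc3ε hL0.le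
    have h12 : 0 < ε * L := mul_pos hε hL0
    nlinarith
  · -- the size of `E`
    rw [hpow2, ← hN, Real.rpow_def_of_pos hN0, ← hLd, ← ht]
    apply Real.exp_le_exp.2
    have h10 : l2 * t ≤ 1 * t := mul_le_mul_of_nonneg_right (by linarith) ht0.le
    have h11 : c3 * L ≤ ε / 10 * L := mul_le_mul_of_nonneg_right hc3ε hL0.le
    have h12 : 0 < ε * L := mul_pos hε hL0
    nlinarith
  · rw [← hN, ← hLd]
    calc κ6 * c3 * L = κ6 * (c3 * L) := by ring
      _ ≤ κ6 * t := mul_le_mul_of_nonneg_left htl hκ6.le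
      _ ≤ s := hs1
      _ ≤ S.card := by exact_mod_cast hSs

end Pool.Agent.Helper80.DR
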