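import Pool.Agent.Helper80.DR.Growth
import Pool.Agent.Helper80.DR.StructOf

set_option autoImplicit false

/-!
# DR-15 Sums: sets with few quotients by popular primes have maximal sumsets
-/

namespace Pool.Agent.Helper80.DR

open Finset

/-- [DR-15] -/
theorem sums (k : ℕ) (ε δ : ℝ) (hε : 0 < ε) (hδ : 0 < δ) : ∃ c : ℝ, 0 < c ∧
    ∀ (A Q : Finset ℤ) (T : Finset ℕ), A.Nonempty → (0 : ℤ) ∉ A → (∀ p ∈ T, p.Prime) →
      δ * Real.log (A.card : ℝ) ≤ (T.card : ℝ) →
      (∀ p ∈ T, δ * (A.card : ℝ) ≤ ((A.filter (fun a => (p : ℤ) ∣ a)).card : ℝ)) →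
      (∀ a ∈ A, ∀ D ⊆ T, (∀ p ∈ D, (p : ℤ) ∣ a) → a / (∏ p ∈ D, (p : ℤ)) ∈ Q) →
      (Q.card : ℝ) ≤ (A.card : ℝ) ^ (1 + c) →
      c * (A.card : ℝ) ^ ((k : ℝ) - ε) ≤
        (((Fintype.piFinset (fun _ : Fin k => A)).image
              (fun f : Fin k → ℤ => ∑ i, f i)).card : ℝ) := by
  classical
  obtain ⟨ε1, hε1, hgrowth⟩ := growth k ε hε
  set c3 := min (δ / 2) (ε1 / 10) with hc3def
  have hc3 : 0 < c3 := by rw [hc3def]; positivity
  have h31 : c3 ≤ δ / 2 := min_le_left _ _
  have h32 : c3 ≤ ε1 / 10 := min_le_right _ _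
  clear_value c3
  set c0 := min δ 1 with hc0def
  have hc0 : 0 < c0 := by rw [hc0def]; positivity
  have hc01 : c0 ≤ 1 := min_le_right _ _
  have hc0δ : c0 ≤ δ := min_le_left _ _
  clear_value c0
  obtain ⟨δ', hδ', hstruct⟩ := struct_of_quotients c0 ε1 c3 hc0 hc01 hε1 hc3 h32
  obtain ⟨K, hK, hgr⟩ := hgrowth δ' hδ'
  obtain ⟨c1, hc1, N0, hst⟩ := hstruct K hK
  set N1 := max N0 (1 / c3) with hN1def
  have hN0N1 : N0 ≤ N1 := le_max_left _ _
  have hcN1 : 1 / c3 ≤ N1 := le_max_right _ _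
  clear_value N1
  refine ⟨min c1 (min 1 (Real.exp (-(k * N1)))), by positivity, ?_⟩
  set c := min c1 (min 1 (Real.exp (-(k * N1)))) with hcdef
  have hca : c ≤ c1 := min_le_left _ _
  have hcb : c ≤ 1 := (min_le_right _ _).trans (min_le_left _ _)
  have hcc : c ≤ Real.exp (-(k * N1)) := (min_le_right _ _).trans (min_le_right _ _)
  have hcpos : 0 < c := by rw [hcdef]; positivity
  clear_value c
  intro A Q T hA h0 hT hTcard hpop hQ hQcard
  have hA1 : (1 : ℝ) ≤ A.card := by exact_mod_cast card_pos.mpr hA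
  have hA0 : (0 : ℝ) < A.card := by linarith
  have hL0 : 0 ≤ Real.log (A.card : ℝ) := Real.log_nonneg hA1
  have hk0 : (0 : ℝ) ≤ k := Nat.cast_nonneg k
  set L := Real.log (A.card : ℝ) with hLdef
  by_cases hL : N1 ≤ L
  · have hc3L : 1 ≤ c3 * L := by
      have h1 := mul_le_mul_of_nonneg_left (hcN1.trans hL) hc3.le
      have h2 : c3 * (1 / c3) = 1 := by field_simp
      linarith
    have htT : ⌈c3 * L⌉₊ ≤ T.card := by
      rw [Nat.ceil_le]
      refine le_trans ?_ hTcard
      exact mul_le_mul_of_nonneg_right (by linarith) hL0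
    obtain ⟨T', hT'T, hT'card⟩ := Finset.exists_subset_card_eq htT
    have ht1 : c3 * L ≤ (T'.card : ℝ) := by rw [hT'card]; exact Nat.le_ceil _
    have ht2 : (T'.card : ℝ) ≤ 2 * c3 * L := by
      rw [hT'card]
      have := (Nat.ceil_lt_add_one (by positivity : (0 : ℝ) ≤ c3 * L)).le
      linarith
    have hS := hst A Q T' h0 hA (hN0N1.trans hL) (fun p hp => hT p (hT'T hp)) ht1 ht2
      (fun p hp => (mul_le_mul_of_nonneg_right hc0δ hA0.le).trans (hpop p (hT'T hp)))
      (fun a ha D hD hDa => hQ a ha D (hD.trans hT'T) hDa)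
      (hQcard.trans (Real.rpow_le_rpow_of_exponent_le hA1 (by linarith)))
    refine le_trans ?_ (hgr A hA hS)
    have : 0 ≤ (A.card : ℝ) ^ ((k : ℝ) - ε) := by positivity
    nlinarith
  · push Not at hL
    have hone : (1 : ℝ) ≤ (((Fintype.piFinset (fun _ : Fin k => A)).image
              (fun f : Fin k → ℤ => ∑ i, f i)).card : ℝ) := by
      have : ((Fintype.piFinset (fun _ : Fin k => A)).image
              (fun f : Fin k → ℤ => ∑ i, f i)).Nonempty := by
        rw [Finset.image_nonempty, Fintype.piFinset_nonempty]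
        exact fun _ => hA
      exact_mod_cast card_pos.mpr this
    refine le_trans ?_ hone
    calc c * (A.card : ℝ) ^ ((k : ℝ) - ε)
        ≤ Real.exp (-(k * N1)) * Real.exp (k * N1) := by
          apply mul_le_mul hcc _ (by positivity) (Real.exp_pos _).le
          rw [Real.rpow_def_of_pos hA0]
          apply Real.exp_le_exp.2
          have h1 : Real.log (A.card : ℝ) * ((k : ℝ) - ε) ≤ Real.log (A.card : ℝ) * k := by
            apply mul_le_mul_of_nonneg_left _ hL0
            linarith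
          refine h1.trans ?_
          rw [mul_comm]
          exact mul_le_mul_of_nonneg_left hL.le hk0
      _ = 1 := by rw [← Real.exp_add, neg_add_cancel, Real.exp_zero]

end Pool.Agent.Helper80.DR
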